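import Pool.Agent.Helper92.Gen.Prim

/-!
# Density via dyadic scales
-/

open Filter

namespace Pool.Agent.Helper92.Gen

open Classical in
/-- Number of elements of `T` in the scale `[2^s, 2^(s+1))`. -/
noncomputable def cnt (T : Set ℕ) (s : ℕ) : ℕ :=
  ((Finset.Ico (2 ^ s) (2 ^ (s + 1))).filter (· ∈ T)).card

/-- `T` has density zero, in the dyadic formulation. -/
def Sm (T : Set ℕ) : Prop := ∀ k, ∃ s₀, ∀ s, s₀ ≤ s → cnt T s * 2 ^ k ≤ 2 ^ s

theorem cnt_mono {T T' : Set ℕ} (s : ℕ)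
    (h : ∀ x, 2 ^ s ≤ x → x < 2 ^ (s + 1) → x ∈ T → x ∈ T') : cnt T s ≤ cnt T' s := by
  unfold cnt
  refine Finset.card_le_card fun x => ?_
  simp only [Finset.mem_filter, Finset.mem_Ico]
  rintro ⟨⟨h1, h2⟩, h3⟩
  exact ⟨⟨h1, h2⟩, h x h1 h2 h3⟩

theorem cnt_union (T T' : Set ℕ) (s : ℕ) : cnt (T ∪ T') s ≤ cnt T s + cnt T' s := by
  classical
  unfold cnt
  refine le_trans (Finset.card_le_card (fun x => ?_)) (Finset.card_union_le _ _)
  simp only [Finset.mem_filter, Finset.mem_Ico, Finset.mem_union, Set.mem_union]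
  tauto

theorem cnt_le (T : Set ℕ) (s : ℕ) : cnt T s ≤ 2 ^ s := by
  classical
  unfold cnt
  refine (Finset.card_filter_le _ _).trans ?_
  rw [Nat.card_Ico, pow_succ]
  omega

theorem cnt_empty (s : ℕ) : cnt ∅ s = 0 := by
  simp [cnt]

theorem Sm.mono {T T' : Set ℕ} (h : Sm T') (s₁ : ℕ) (h1 : ∀ x, s₁ ≤ x → x ∈ T → x ∈ T') :
    Sm T := by
  intro k
  obtain ⟨s₀, hs⟩ := h k
  refine ⟨max s₀ s₁, fun s h2 => ?_⟩
  have h3 : cnt T s ≤ cnt T' s := cnt_mono s fun x hx _ hxT =>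
    h1 x ((le_max_right _ _).trans (h2.trans (Nat.lt_two_pow_self.le.trans hx))) hxT
  exact (Nat.mul_le_mul_right _ h3).trans (hs s ((le_max_left _ _).trans h2))

theorem sm_empty : Sm ∅ := fun k => ⟨0, fun s _ => by simp [cnt_empty]⟩

theorem Sm.union {T T' : Set ℕ} (h : Sm T) (h' : Sm T') : Sm (T ∪ T') := by
  intro k
  obtain ⟨s₀, hs⟩ := h (k + 1)
  obtain ⟨s₁, hs'⟩ := h' (k + 1)
  refine ⟨max s₀ s₁, fun s h2 => ?_⟩
  have h3 := hs s ((le_max_left _ _).trans h2)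
  have h4 := hs' s ((le_max_right _ _).trans h2)
  have h5 := cnt_union T T' s
  rw [pow_succ] at h3 h4
  nlinarith [Nat.two_pow_pos k]

/-- A set with at most one element in every large scale is small. -/
theorem sm_of_le_one {T : Set ℕ} (n₀ : ℕ) (h : ∀ n, n₀ ≤ n → cnt T n ≤ 1) : Sm T := by
  intro k
  refine ⟨max n₀ k, fun s hs => ?_⟩
  have h1 := h s ((le_max_left _ _).trans hs)
  have h2 : 2 ^ k ≤ 2 ^ s := Nat.pow_le_pow_right (by norm_num) ((le_max_right _ _).trans hs)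
  nlinarith [Nat.two_pow_pos k]

theorem cnt_le_one {T : Set ℕ} {n : ℕ}
    (h : ∀ x y, 2 ^ n ≤ x → x < 2 ^ (n + 1) → 2 ^ n ≤ y → y < 2 ^ (n + 1) → x ∈ T → y ∈ T →
      x = y) : cnt T n ≤ 1 := by
  unfold cnt
  rw [Finset.card_le_one]
  intro a ha b hb
  simp only [Finset.mem_filter, Finset.mem_Ico] at ha hb
  exact h a b ha.1.1 ha.1.2 hb.1.1 hb.1.2 ha.2 hb.2

/-- If the complement of `T` is small then `T` meets every large scale. -/
theorem exists_mem_scale {T : Set ℕ} (h : Sm Tᶜ) :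
    ∃ n₀, ∀ n, n₀ ≤ n → ∃ q, 2 ^ n ≤ q ∧ q < 2 ^ (n + 1) ∧ q ∈ T := by
  obtain ⟨n₀, hn⟩ := h 1
  refine ⟨n₀, fun n h1 => ?_⟩
  by_contra hcon
  push Not at hcon
  have h2 := hn n h1
  have h3 : 2 ^ n ≤ cnt Tᶜ n := by
    have h4 : (Finset.Ico (2 ^ n) (2 ^ (n + 1))).card = 2 ^ n := by
      rw [Nat.card_Ico, pow_succ]; omega
    rw [← h4]
    unfold cnt
    refine Finset.card_le_card fun x hx => ?_
    simp only [Finset.mem_filter, Finset.mem_Ico] at hx ⊢
    exact ⟨hx, hcon x hx.1 hx.2⟩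
  have := Nat.two_pow_pos n
  omega

/-! ### comparison with natural density -/

open Classical in
/-- Number of elements of `T` below `m`. -/
noncomputable def cb (T : Set ℕ) (m : ℕ) : ℕ := ((Finset.range m).filter (· ∈ T)).card

theorem ncard_eq (S : Set ℕ) (m : ℕ) : (S ∩ Set.Iio m).ncard = cb S m := by
  classical
  have : S ∩ Set.Iio m = ↑((Finset.range m).filter (· ∈ S)) := by
    ext x; simp [and_comm]
  rw [this, Set.ncard_coe_finset]
  unfold cb
  congr

theorem cb_add_compl (S : Set ℕ) (m : ℕ) : cb S m + cb Sᶜ m = m := by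
  classical
  unfold cb
  have := Finset.card_filter_add_card_filter_not (s := Finset.range m) (fun x => x ∈ S)
  rw [Finset.card_range] at this
  convert this

theorem cb_mono (T : Set ℕ) {m m' : ℕ} (h : m ≤ m') : cb T m ≤ cb T m' := by
  classical
  unfold cb
  exact Finset.card_le_card (Finset.filter_subset_filter _ (Finset.range_subset_range.2 h))

theorem cb_le (T : Set ℕ) (m : ℕ) : cb T m ≤ m := by
  classical
  unfold cb
  refine (Finset.card_filter_le _ _).trans ?_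
  rw [Finset.card_range]

theorem cb_succ (T : Set ℕ) (s : ℕ) : cb T (2 ^ (s + 1)) = cb T (2 ^ s) + cnt T s := by
  classical
  unfold cb cnt
  rw [← Finset.card_union_of_disjoint]
  · congr 1
    ext x
    simp only [Finset.mem_filter, Finset.mem_range, Finset.mem_union, Finset.mem_Ico]
    have : 2 ^ s ≤ 2 ^ (s + 1) := Nat.pow_le_pow_right (by norm_num) (by omega)
    constructor
    · rintro ⟨h1, h2⟩
      rcases lt_or_ge x (2 ^ s) with h3 | h3
      · exact Or.inl ⟨h3, h2⟩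
      · exact Or.inr ⟨⟨h3, h1⟩, h2⟩
    · rintro (⟨h1, h2⟩ | ⟨⟨h1, h2⟩, h3⟩)
      · exact ⟨by omega, h2⟩
      · exact ⟨h2, h3⟩
  · rw [Finset.disjoint_left]
    intro x
    simp only [Finset.mem_filter, Finset.mem_range, Finset.mem_Ico]
    rintro ⟨h1, _⟩ ⟨⟨h2, _⟩, _⟩
    omega

theorem dens_iff (S : Set ℕ) :
    Tendsto (fun m : ℕ => (((S ∩ Set.Iio m).ncard : ℝ) / (m : ℝ))) atTop (nhds 1) ↔
      Tendsto (fun m : ℕ => ((cb Sᶜ m : ℝ) / (m : ℝ))) atTop (nhds 0) := by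
  have h1 : ∀ᶠ m : ℕ in atTop, ((S ∩ Set.Iio m).ncard : ℝ) / (m : ℝ) =
      1 - (cb Sᶜ m : ℝ) / (m : ℝ) := by
    filter_upwards [eventually_gt_atTop 0] with m hm
    rw [ncard_eq]
    have h2 : (cb S m : ℝ) + cb Sᶜ m = m := by exact_mod_cast cb_add_compl S m
    have h3 : (m : ℝ) ≠ 0 := by positivity
    field_simp
    linarith
  rw [tendsto_congr' h1]
  constructor
  · intro h
    have := (tendsto_const_nhds (x := (1 : ℝ))).sub h
    simpa using this
  · intro h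
    have := (tendsto_const_nhds (x := (1 : ℝ))).sub h
    simpa using this

theorem sm_iff (T : Set ℕ) :
    Tendsto (fun m : ℕ => ((cb T m : ℝ) / (m : ℝ))) atTop (nhds 0) ↔ Sm T := by
  constructor
  · intro h k
    have h1 := h.eventually (gt_mem_nhds (show (0 : ℝ) < 1 / 2 ^ (k + 1) by positivity))
    obtain ⟨m₀, hm⟩ := eventually_atTop.1 h1
    refine ⟨m₀, fun s hs => ?_⟩
    have h2 : m₀ ≤ 2 ^ (s + 1) := by
      have := @Nat.lt_two_pow_self s
      rw [pow_succ]; omega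
    have h3 := hm _ h2
    have h4 : (cb T (2 ^ (s + 1)) : ℝ) * 2 ^ (k + 1) < ((2 ^ (s + 1) : ℕ) : ℝ) := by
      rw [div_lt_div_iff₀ (by positivity) (by positivity)] at h3
      linarith
    have h5 : cb T (2 ^ (s + 1)) * 2 ^ (k + 1) < 2 ^ (s + 1) := by exact_mod_cast h4
    rw [cb_succ, pow_succ 2 k, pow_succ 2 s] at h5
    nlinarith [Nat.two_pow_pos k]
  · intro h
    rw [Metric.tendsto_atTop]
    intro ε hε
    obtain ⟨k, hk⟩ := exists_pow_lt_of_lt_one (show (0 : ℝ) < ε / 4 by positivity)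
      (show (1 / 2 : ℝ) < 1 by norm_num)
    obtain ⟨s₀, hs⟩ := h k
    have h1 : ∀ M, cb T (2 ^ M) * 2 ^ k ≤ 2 ^ (s₀ + k) + 2 ^ M := by
      intro M
      induction M with
      | zero =>
        have := cb_le T (2 ^ 0)
        have h2 : (2 : ℕ) ^ k ≤ 2 ^ (s₀ + k) := Nat.pow_le_pow_right (by norm_num) (by omega)
        nlinarith [Nat.two_pow_pos k]
      | succ M ih =>
        rcases le_or_gt s₀ M with h2 | h2
        · have := hs M h2
          rw [cb_succ, pow_succ 2 M]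
          nlinarith
        · have h3 := cb_le T (2 ^ (M + 1))
          have h4 : (2 : ℕ) ^ (M + 1) ≤ 2 ^ s₀ := Nat.pow_le_pow_right (by norm_num) (by omega)
          have h5 : cb T (2 ^ (M + 1)) * 2 ^ k ≤ 2 ^ s₀ * 2 ^ k :=
            Nat.mul_le_mul_right _ (h3.trans h4)
          rw [pow_add 2 s₀ k]
          exact h5.trans (Nat.le_add_right _ _)
    have h2 : ∀ m, 1 ≤ m → cb T m * 2 ^ k ≤ 2 ^ (s₀ + k) + 2 * m := by
      intro m hm
      have h3 := cb_mono T (Nat.le_pow_clog (one_lt_two) m)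
      have h4 : 2 ^ Nat.clog 2 m ≤ 2 * m := by
        rcases Nat.eq_or_lt_of_le hm with h5 | h5
        · rw [← h5]; simp
        · have h6 := Nat.pow_pred_clog_lt_self one_lt_two h5
          have h7 : 0 < Nat.clog 2 m := Nat.clog_pos one_lt_two h5
          obtain ⟨c, hc⟩ := Nat.exists_eq_succ_of_ne_zero h7.ne'
          rw [hc] at h6 ⊢
          simp only [Nat.succ_eq_add_one, Nat.pred_eq_sub_one, Nat.add_sub_cancel] at h6
          rw [Nat.succ_eq_add_one, pow_succ]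
          omega
      calc cb T m * 2 ^ k ≤ cb T (2 ^ Nat.clog 2 m) * 2 ^ k := Nat.mul_le_mul_right _ h3
        _ ≤ 2 ^ (s₀ + k) + 2 ^ Nat.clog 2 m := h1 _
        _ ≤ _ := by omega
    obtain ⟨N, hN⟩ := exists_nat_gt ((2 : ℝ) ^ (s₀ + k) / (ε / 4 * 2 ^ k))
    refine ⟨max N 1, fun m hm => ?_⟩
    have hm1 : 1 ≤ m := (le_max_right _ _).trans hm
    have hmN : (N : ℝ) ≤ m := by exact_mod_cast (le_max_left _ _).trans hm
    have h3 : (cb T m : ℝ) * 2 ^ k ≤ 2 ^ (s₀ + k) + 2 * m := by exact_mod_cast h2 m hm1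
    have hmpos : (0 : ℝ) < m := by exact_mod_cast hm1
    rw [Real.dist_eq, sub_zero, abs_of_nonneg (by positivity), div_lt_iff₀ hmpos]
    have h2k : (0 : ℝ) < 2 ^ k := by positivity
    have h4 : (2 : ℝ) ^ (s₀ + k) < ε / 4 * 2 ^ k * m := by
      have := hN.trans_le hmN
      rw [div_lt_iff₀ (by positivity)] at this
      linarith
    have h5 : (1 : ℝ) < ε / 4 * 2 ^ k := by
      have : (1 / 2 : ℝ) ^ k * 2 ^ k = 1 := by
        rw [← mul_pow]; norm_num
      nlinarith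
    have h6 : (2 : ℝ) * m < 2 * (ε / 4 * 2 ^ k) * m := by nlinarith
    have h7 : (cb T m : ℝ) * 2 ^ k < ε * m * 2 ^ k := by nlinarith [mul_pos hε hmpos]
    exact lt_of_mul_lt_mul_right h7 h2k.le

theorem dens_iff_sm (S : Set ℕ) :
    Tendsto (fun m : ℕ => (((S ∩ Set.Iio m).ncard : ℝ) / (m : ℝ))) atTop (nhds 1) ↔ Sm Sᶜ := by
  rw [dens_iff, sm_iff]

/-! ### columns -/

/-- The `q`-th element of the `i`-th column. -/
def cod (i q : ℕ) : ℕ := 2 ^ i * (2 * q + 1)

theorem cod_pos (i q : ℕ) : 0 < cod i q := by unfold cod; positivity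

theorem le_cod (i q : ℕ) : q ≤ cod i q := by
  unfold cod
  have := Nat.one_le_two_pow (n := i)
  nlinarith

theorem cod_inj {i q i' q' : ℕ} (h : cod i q = cod i' q') : i = i' ∧ q = q' := by
  unfold cod at h
  have key : ∀ a b q q' : ℕ, a < b → 2 ^ a * (2 * q + 1) ≠ 2 ^ b * (2 * q' + 1) := by
    intro a b q q' hab h
    obtain ⟨c, rfl⟩ := Nat.exists_eq_add_of_lt hab
    rw [show a + c + 1 = a + (c + 1) by ring, pow_add, mul_assoc] at h
    have h1 := Nat.eq_of_mul_eq_mul_left (Nat.two_pow_pos a) h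
    rw [pow_succ, show 2 ^ c * 2 * (2 * q' + 1) = 2 * (2 ^ c * (2 * q' + 1)) by ring] at h1
    omega
  have h1 : i = i' := by
    rcases lt_trichotomy i i' with h1 | h1 | h1
    · exact absurd h (key _ _ _ _ h1)
    · exact h1
    · exact absurd h.symm (key _ _ _ _ h1)
  subst h1
  have := Nat.eq_of_mul_eq_mul_left (Nat.two_pow_pos i) h
  exact ⟨rfl, by omega⟩

theorem exists_cod {n : ℕ} (h : 0 < n) : ∃ i q, n = cod i q := by
  induction n using Nat.strong_induction_on with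
  | _ n ih =>
    rcases Nat.even_or_odd' n with ⟨c, rfl | rfl⟩
    · obtain ⟨i, q, hc⟩ := ih c (by omega) (by omega)
      refine ⟨i + 1, q, ?_⟩
      rw [hc]; unfold cod; ring
    · exact ⟨0, c, by unfold cod; ring⟩

theorem cod_scale {i q s : ℕ} (h1 : 2 ^ s ≤ q) (h2 : q < 2 ^ (s + 1)) :
    2 ^ (s + 1 + i) ≤ cod i q ∧ cod i q < 2 ^ (s + 1 + i + 1) := by
  unfold cod
  have hp := Nat.two_pow_pos i
  rw [pow_succ] at h2
  constructor
  · rw [pow_add, pow_succ, mul_comm]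
    exact Nat.mul_le_mul_left _ (by omega)
  · rw [show s + 1 + i + 1 = i + (s + 2) by ring, pow_add]
    refine Nat.mul_lt_mul_of_pos_left ?_ hp
    rw [pow_add]; omega

theorem Sm.col {T : Set ℕ} (h : Sm T) (i : ℕ) : Sm {q | cod i q ∈ T} := by
  classical
  intro k
  obtain ⟨s₀, hs⟩ := h (k + 1 + i)
  refine ⟨s₀, fun s h1 => ?_⟩
  have h2 := hs (s + 1 + i) (by omega)
  have h3 : cnt {q | cod i q ∈ T} s ≤ cnt T (s + 1 + i) := by
    unfold cnt
    refine Finset.card_le_card_of_injOn (cod i) ?_ ?_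
    · intro q
      simp only [Finset.coe_filter, Finset.mem_Ico, Set.mem_ofPred_eq]
      rintro ⟨⟨h1, h2⟩, h3⟩
      exact ⟨cod_scale h1 h2, h3⟩
    · intro q _ q' _ h
      exact (cod_inj h).2
  have h4 : cnt {q | cod i q ∈ T} s * 2 ^ (k + 1 + i) ≤ 2 ^ (s + 1 + i) :=
    (Nat.mul_le_mul_right _ h3).trans h2
  rw [show k + 1 + i = k + (1 + i) by ring, show s + 1 + i = s + (1 + i) by ring,
    pow_add 2 k (1 + i), pow_add 2 s (1 + i), ← mul_assoc] at h4
  exact Nat.le_of_mul_le_mul_right h4 (Nat.two_pow_pos _)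

theorem sum_pow (m : ℕ) : ∀ K, K ≤ m → ∑ i ∈ Finset.range K, 2 ^ (m - 1 - i) + 2 ^ (m - K) = 2 ^ m := by
  intro K
  induction K with
  | zero => intro _; simp
  | succ K ih =>
    intro hK
    rw [Finset.sum_range_succ, ← ih (by omega), show m - K = (m - (K + 1)) + 1 by omega, pow_succ,
      show m - 1 - K = m - (K + 1) by omega]
    omega

theorem cnt_le_sum (T : Set ℕ) (m : ℕ) :
    cnt T m ≤ 1 + ∑ i ∈ Finset.range m, cnt {q | cod i q ∈ T} (m - 1 - i) := by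
  classical
  have h1 : (Finset.Ico (2 ^ m) (2 ^ (m + 1))).filter (· ∈ T) ⊆
      {2 ^ m} ∪ (Finset.range m).biUnion fun i =>
        ((Finset.Ico (2 ^ (m - 1 - i)) (2 ^ (m - 1 - i + 1))).filter
          (· ∈ {q | cod i q ∈ T})).image (cod i) := by
    intro x
    simp only [Finset.mem_filter, Finset.mem_Ico, Finset.mem_union, Finset.mem_singleton,
      Finset.mem_biUnion, Finset.mem_range, Finset.mem_image, Set.mem_ofPred_eq]
    rintro ⟨⟨h1, h2⟩, h3⟩
    obtain ⟨i, q, rfl⟩ := exists_cod (lt_of_lt_of_le (Nat.two_pow_pos m) h1)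
    rcases Nat.eq_zero_or_pos q with hq | hq
    · left
      subst hq
      unfold cod at h1 h2 ⊢
      simp only [mul_zero, zero_add, mul_one] at h1 h2 ⊢
      have h4 := (Nat.pow_le_pow_iff_right (by norm_num : 1 < 2)).1 h1
      have h5 := (Nat.pow_lt_pow_iff_right (by norm_num : 1 < 2)).1 h2
      rw [show i = m by omega]
    · right
      obtain ⟨s, hs1, hs2⟩ : ∃ s, 2 ^ s ≤ q ∧ q < 2 ^ (s + 1) :=
        ⟨Nat.log 2 q, Nat.pow_log_le_self 2 hq.ne', Nat.lt_pow_succ_log_self one_lt_two q⟩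
      have h4 := cod_scale (i := i) hs1 hs2
      have h5 : s + 1 + i = m := by
        have h6 := (Nat.pow_lt_pow_iff_right (by norm_num : 1 < 2)).1 (h1.trans_lt h4.2)
        have h7 := (Nat.pow_lt_pow_iff_right (by norm_num : 1 < 2)).1 (h4.1.trans_lt h2)
        omega
      refine ⟨i, by omega, q, ⟨⟨?_, ?_⟩, h3⟩, rfl⟩
      · rwa [show m - 1 - i = s by omega]
      · rwa [show m - 1 - i = s by omega]
  unfold cnt
  refine (Finset.card_le_card h1).trans ((Finset.card_union_le _ _).trans ?_)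
  rw [Finset.card_singleton]
  refine Nat.add_le_add_left (Finset.card_biUnion_le.trans (Finset.sum_le_sum fun i _ => ?_)) 1
  exact Finset.card_image_le

theorem sm_of_cols {T : Set ℕ} (h : ∀ i, Sm {q | cod i q ∈ T}) : Sm T := by
  intro k
  choose s hs using fun i => h i (k + 2)
  obtain ⟨B, hB⟩ : ∃ B, ∀ i, i < k + 2 → s i ≤ B :=
    ⟨(Finset.range (k + 2)).sup s, fun i hi => Finset.le_sup (Finset.mem_range.2 hi)⟩
  refine ⟨B + k + 3, fun m hm => ?_⟩
  have h1 := cnt_le_sum T m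
  have h2 : ∑ i ∈ Finset.range m, cnt {q | cod i q ∈ T} (m - 1 - i) =
      ∑ i ∈ Finset.range (k + 2), cnt {q | cod i q ∈ T} (m - 1 - i) +
      ∑ i ∈ Finset.Ico (k + 2) m, cnt {q | cod i q ∈ T} (m - 1 - i) :=
    (Finset.sum_range_add_sum_Ico _ (by omega)).symm
  have h3 : (∑ i ∈ Finset.range (k + 2), cnt {q | cod i q ∈ T} (m - 1 - i)) * 2 ^ (k + 2) ≤
      2 ^ m := by
    rw [Finset.sum_mul]
    have h5 := sum_pow m (k + 2) (by omega)
    refine le_trans (Finset.sum_le_sum fun i hi => hs i (m - 1 - i) ?_) (Nat.le.intro h5)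
    have := Finset.mem_range.1 hi
    have := hB i this
    omega
  have h4 : ∑ i ∈ Finset.Ico (k + 2) m, cnt {q | cod i q ∈ T} (m - 1 - i) ≤ 2 ^ (m - (k + 2)) := by
    have h5 := sum_pow m (k + 2) (by omega)
    have h6 := sum_pow m m le_rfl
    rw [Nat.sub_self, pow_zero] at h6
    have h7 : ∑ i ∈ Finset.range m, 2 ^ (m - 1 - i) =
      ∑ i ∈ Finset.range (k + 2), 2 ^ (m - 1 - i) + ∑ i ∈ Finset.Ico (k + 2) m, 2 ^ (m - 1 - i) :=
      (Finset.sum_range_add_sum_Ico _ (by omega)).symm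
    have h8 : ∑ i ∈ Finset.Ico (k + 2) m, cnt {q | cod i q ∈ T} (m - 1 - i) ≤
        ∑ i ∈ Finset.Ico (k + 2) m, 2 ^ (m - 1 - i) :=
      Finset.sum_le_sum fun i _ => cnt_le _ _
    omega
  have h5 : 2 ^ (m - (k + 2)) * 2 ^ (k + 2) = 2 ^ m := by
    rw [← pow_add]; congr 1; omega
  have h6 : 2 ^ (k + 2) ≤ 2 ^ m := Nat.pow_le_pow_right (by norm_num) (by omega)
  have h7 : cnt T m * 2 ^ (k + 2) ≤ 4 * 2 ^ m := by
    calc cnt T m * 2 ^ (k + 2) ≤ (1 + (∑ i ∈ Finset.range (k + 2), cnt {q | cod i q ∈ T} (m - 1 - i)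
          + 2 ^ (m - (k + 2)))) * 2 ^ (k + 2) := Nat.mul_le_mul_right _ (by omega)
      _ = 2 ^ (k + 2) + (∑ i ∈ Finset.range (k + 2), cnt {q | cod i q ∈ T} (m - 1 - i)) *
          2 ^ (k + 2) + 2 ^ m := by rw [← h5]; ring
      _ ≤ _ := by omega
  rw [pow_add, ← mul_assoc] at h7
  omega

end Pool.Agent.Helper92.Gen
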