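import Pool.Agent.Helper92.Gen.Key

/-!
# Leftmost paths: reduction to sets coarsely equal to a limit computable set
-/

open Filter

namespace Pool.Agent.Helper92.Gen

/-- Membership of a weakening of context. -/
theorem w1 {α β : Type*} [Primcodable α] [Primcodable β] {f : α → β} (hf : Primrec f) :
    Primrec fun p : α × ℕ => f p.1 := hf.comp Primrec.fst

theorem v1 {α : Type*} [Primcodable α] : Primrec fun p : α × ℕ => p.2 := Primrec.snd

/-- The string of length `n` coded by `c` has no initial segment enumerated by stage `n`. -/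
def good (e n c : ℕ) : Prop := ∀ l, l < n + 1 → ¬ En e n (Nat.pair l (c / 2 ^ (n - l)))

open Classical in
/-- The leftmost string of length `n` which is good at stage `n` (or `2 ^ n`). -/
noncomputable def lx (e n : ℕ) : ℕ :=
  Nat.findGreatest (fun m => ∀ c, c < m → ¬ good e n c) (2 ^ n)

/-- Length of agreement with the previous stage. -/
noncomputable def lam (e n : ℕ) : ℕ :=
  Nat.findGreatest (fun l => lx e n / 2 ^ (n - l) = lx e (n - 1) / 2 ^ (n - 1 - l)) (n - 1)

/-- The `y`-th bit of the leftmost path at stage `n`. -/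
noncomputable def bit (e n y : ℕ) : ℕ := lx e n / 2 ^ (n - 1 - y) % 2

section primrec

variable {α : Type*} [Primcodable α] {e n c y : α → ℕ}

theorem p_good (he : Primrec e) (hn : Primrec n) (hc : Primrec c) :
    PrimrecPred fun a => good (e a) (n a) (c a) := by
  unfold good
  exact p_ball (p_add hn (p_const 1)) (p_not (p_En (w1 he) (w1 hn)
    (p_pair v1 (p_div (w1 hc) (p_pow (p_const 2) (p_sub (w1 hn) v1))))))

theorem p_lx (he : Primrec e) (hn : Primrec n) : Primrec fun a => lx (e a) (n a) := by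
  classical
  unfold lx
  exact p_findGreatest (p_pow (p_const 2) hn)
    (p_ball v1 (p_not (p_good (w1 (w1 he)) (w1 (w1 hn)) v1)))

theorem p_lam (he : Primrec e) (hn : Primrec n) : Primrec fun a => lam (e a) (n a) := by
  unfold lam
  have h1 := p_sub hn (p_const 1)
  refine p_findGreatest h1 (p_eq (p_div (w1 (p_lx he hn)) (p_pow (p_const 2) (p_sub (w1 hn) v1)))
    (p_div (w1 (p_lx he h1)) (p_pow (p_const 2) (p_sub (w1 h1) v1))))

theorem p_bit (he : Primrec e) (hn : Primrec n) (hy : Primrec y) :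
    Primrec fun a => bit (e a) (n a) (y a) := by
  unfold bit
  exact p_mod (p_div (p_lx he hn) (p_pow (p_const 2) (p_sub (p_sub hn (p_const 1)) hy)))
    (p_const 2)

end primrec

theorem lx_le (e n : ℕ) : lx e n ≤ 2 ^ n := by
  classical
  unfold lx
  exact Nat.findGreatest_le _

theorem not_good_of_lt {e n c : ℕ} (h : c < lx e n) : ¬ good e n c := by
  classical
  have h1 : ∀ c, c < lx e n → ¬ good e n c :=
    Nat.findGreatest_spec (P := fun m => ∀ c, c < m → ¬ good e n c) (Nat.zero_le _)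
      (fun c hc => absurd hc (Nat.not_lt_zero c))
  exact h1 c h

theorem good_lx {e n : ℕ} (h : lx e n < 2 ^ n) : good e n (lx e n) := by
  classical
  by_contra h1
  have h2 : lx e n + 1 ≤ lx e n := by
    refine Nat.le_findGreatest (P := fun m => ∀ c, c < m → ¬ good e n c) (by omega) ?_
    intro c hc
    rcases Nat.lt_succ_iff_lt_or_eq.1 hc with h3 | h3
    · exact not_good_of_lt h3
    · rwa [h3]
  omega

theorem good_mono {e n c : ℕ} (h : good e (n + 1) c) : good e n (c / 2) := by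
  intro l hl h1
  refine h l (by omega) (h1.mono (Nat.le_succ n) |> fun h2 => ?_)
  rwa [Nat.div_div_eq_div_mul, ← pow_succ', show n - l + 1 = n + 1 - l by omega] at h2

theorem lx_mono (e n : ℕ) : lx e n ≤ lx e (n + 1) / 2 := by
  by_contra h
  push Not at h
  rcases lt_or_ge (lx e (n + 1)) (2 ^ (n + 1)) with h1 | h1
  · exact not_good_of_lt h (good_mono (good_lx h1))
  · have h2 := lx_le e n
    rw [pow_succ] at h1
    omega

theorem pre_mono {e n l : ℕ} (h : l ≤ n) :
    lx e n / 2 ^ (n - l) ≤ lx e (n + 1) / 2 ^ (n + 1 - l) := by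
  rw [show n + 1 - l = (n - l) + 1 by omega, pow_succ', ← Nat.div_div_eq_div_mul]
  exact Nat.div_le_div_right (lx_mono e n)

theorem dead_mono {e n : ℕ} (h : lx e n = 2 ^ n) : ∀ m, n ≤ m → lx e m = 2 ^ m := by
  intro m hm
  induction m, hm using Nat.le_induction with
  | base => exact h
  | succ m hm ih =>
    have h1 := lx_mono e m
    have h2 := lx_le e (m + 1)
    rw [ih] at h1
    rw [pow_succ] at *
    omega

theorem ev_const (f : ℕ → ℕ) (B : ℕ) (hB : ∀ n, f n ≤ B) (hm : ∀ n, f n ≤ f (n + 1)) :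
    ∃ N, ∀ n, N ≤ n → f n = f N := by
  have hmono : Monotone f := monotone_nat_of_le_succ hm
  obtain ⟨N, hN⟩ : ∃ N, ∀ n, B - f N ≤ B - f n := by
    obtain ⟨N, hN⟩ := WellFounded.has_min Nat.lt_wfRel.wf (Set.range fun n => B - f n)
      ⟨_, ⟨0, rfl⟩⟩
    obtain ⟨⟨k, rfl⟩, hk⟩ := hN
    exact ⟨k, fun n => not_lt.1 (hk _ ⟨n, rfl⟩)⟩
  refine ⟨N, fun n hn => ?_⟩
  have h1 := hmono hn
  have h2 := hN n
  have h3 := hB n
  omega

/-- The tree of the `e`-th class never dies. -/
def Alive (e : ℕ) : Prop := ∀ n, lx e n < 2 ^ n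

theorem conv {e : ℕ} (h : Alive e) (l : ℕ) :
    ∃ N, l ≤ N ∧ ∀ n, N ≤ n → lx e n / 2 ^ (n - l) = lx e N / 2 ^ (N - l) := by
  obtain ⟨N, hN⟩ := ev_const (fun n => lx e (n + l) / 2 ^ n) (2 ^ l) (fun n => by
    have h1 := h (n + l)
    rw [pow_add] at h1
    exact (Nat.div_lt_of_lt_mul h1).le) (fun n => by
    have h1 := pre_mono (e := e) (show l ≤ n + l by omega)
    rw [show n + l - l = n by omega, show n + l + 1 - l = n + 1 by omega] at h1
    rw [show n + 1 + l = n + l + 1 by omega]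
    exact h1)
  refine ⟨N + l, by omega, fun n hn => ?_⟩
  have h1 : lx e (n - l + l) / 2 ^ (n - l) = lx e (N + l) / 2 ^ N := hN (n - l) (by omega)
  rw [show n - l + l = n by omega] at h1
  rw [show N + l - l = N by omega]
  exact h1

theorem lam_le (e n : ℕ) : lam e n ≤ n - 1 := Nat.findGreatest_le _

theorem lam_spec {e n : ℕ} (h : Alive e) :
    lx e n / 2 ^ (n - lam e n) = lx e (n - 1) / 2 ^ (n - 1 - lam e n) := by
  refine Nat.findGreatest_spec
    (P := fun l => lx e n / 2 ^ (n - l) = lx e (n - 1) / 2 ^ (n - 1 - l)) (Nat.zero_le _) ?_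
  show lx e n / 2 ^ (n - 0) = lx e (n - 1) / 2 ^ (n - 1 - 0)
  rw [Nat.sub_zero, Nat.sub_zero, Nat.div_eq_of_lt (h _), Nat.div_eq_of_lt (h _)]

theorem lam_tendsto {e : ℕ} (h : Alive e) (L : ℕ) : ∃ N, ∀ n, N ≤ n → L ≤ lam e n := by
  obtain ⟨N, hN1, hN⟩ := conv h L
  refine ⟨N + 1, fun n hn => ?_⟩
  refine Nat.le_findGreatest (by omega) ?_
  rw [hN n (by omega), hN (n - 1) (by omega)]

theorem pre_eq {e n n' L l : ℕ} (hL : L ≤ n) (hL' : L ≤ n') (hl : l ≤ L)
    (h : lx e n / 2 ^ (n - L) = lx e n' / 2 ^ (n' - L)) :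
    lx e n / 2 ^ (n - l) = lx e n' / 2 ^ (n' - l) := by
  rw [show n - l = (n - L) + (L - l) by omega, show n' - l = (n' - L) + (L - l) by omega,
    pow_add, pow_add, ← Nat.div_div_eq_div_mul, ← Nat.div_div_eq_div_mul, h]

theorem bit_lt (e n y : ℕ) : bit e n y < 2 := Nat.mod_lt _ (by norm_num)

theorem bit_prev {e n y : ℕ} (h : Alive e) (hy : y < lam e n) :
    bit e n y = bit e (n - 1) y := by
  have h1 := lam_le e n
  have h2 := pre_eq (l := y + 1) (by omega) (by omega) hy (lam_spec (n := n) h)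
  unfold bit
  rw [show n - 1 - y = n - (y + 1) by omega, show n - 1 - 1 - y = n - 1 - (y + 1) by omega, h2]

theorem bit_conv {e : ℕ} (h : Alive e) (y : ℕ) : ∃ b N, ∀ n, N ≤ n → bit e n y = b := by
  obtain ⟨N, hN1, hN⟩ := conv h (y + 1)
  refine ⟨lx e N / 2 ^ (N - (y + 1)) % 2, N, fun n hn => ?_⟩
  unfold bit
  rw [show n - 1 - y = n - (y + 1) by omega, hN n hn]

theorem pre_true {e n : ℕ} (h : Alive e) (ht : ∀ t, n < t → lam e n ≤ lam e t) :
    ∀ t, n ≤ t → lx e t / 2 ^ (t - lam e n) = lx e n / 2 ^ (n - lam e n) := by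
  intro t htn
  induction t, htn using Nat.le_induction with
  | base => rfl
  | succ t htn ih =>
    rw [← ih]
    have h1 := lam_le e (t + 1)
    have h2 := ht (t + 1) (by omega)
    exact pre_eq (L := lam e (t + 1)) (by omega) (by omega) h2 (lam_spec h)

/-- Existence of true stages. -/
theorem exists_true {f : ℕ → ℕ} (hf : ∀ L, ∃ N, ∀ n, N ≤ n → L ≤ f n) (m L : ℕ) :
    ∃ n, m ≤ n ∧ L ≤ f n ∧ ∀ t, n < t → f n ≤ f t := by
  obtain ⟨N, hN⟩ := hf L
  obtain ⟨k, hk⟩ : ∃ k, ∀ n, f (max m N + k) ≤ f (max m N + n) := by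
    obtain ⟨N', hN'⟩ := WellFounded.has_min Nat.lt_wfRel.wf
      (Set.range fun n => f (max m N + n)) ⟨_, ⟨0, rfl⟩⟩
    obtain ⟨⟨k, rfl⟩, hk⟩ := hN'
    exact ⟨k, fun n => not_lt.1 (hk _ ⟨n, rfl⟩)⟩
  have h1 := le_max_left m N
  have h2 := le_max_right m N
  refine ⟨max m N + k, by omega, hN _ (by omega), fun t ht => ?_⟩
  have := hk (t - max m N)
  rwa [show max m N + (t - max m N) = t by omega] at this

open Classical in
/-- The characteristic function. -/
noncomputable def ch (A : Set ℕ) (y : ℕ) : ℕ := if y ∈ A then 1 else 0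

theorem ch_lt (A : Set ℕ) (y : ℕ) : ch A y < 2 := by unfold ch; split <;> norm_num

theorem mem_Gr {A : Set ℕ} {y j : ℕ} : Nat.pair y j ∈ Gr A ↔ j = ch A y := by
  unfold Gr ch
  constructor
  · rintro ⟨n, j', h1, h2⟩
    rw [Nat.pair_eq_pair] at h1
    obtain ⟨rfl, rfl⟩ := h1
    rcases h2 with ⟨h3, h4⟩ | ⟨h3, h4⟩ <;> simp [h3, h4]
  · intro h
    refine ⟨y, j, rfl, ?_⟩
    by_cases hy : y ∈ A <;> simp [hy] at h ⊢ <;> exact h

/-- The initial segment of length `l` of `A` as a number. -/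
noncomputable def numA (A : Set ℕ) : ℕ → ℕ
  | 0 => 0
  | l + 1 => 2 * numA A l + ch A l

theorem numA_lt (A : Set ℕ) (l : ℕ) : numA A l < 2 ^ l := by
  induction l with
  | zero => simp [numA]
  | succ l ih =>
    have := ch_lt A l
    rw [numA, pow_succ]; omega

theorem numA_div (A : Set ℕ) {l n : ℕ} (h : l ≤ n) : numA A n / 2 ^ (n - l) = numA A l := by
  induction n, h using Nat.le_induction with
  | base => simp
  | succ n hn ih =>
    have h1 : numA A (n + 1) / 2 = numA A n := by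
      have := ch_lt A n
      rw [numA]; omega
    rw [show n + 1 - l = (n - l) + 1 by omega, pow_succ', ← Nat.div_div_eq_div_mul, h1, ih]

theorem numA_bit (A : Set ℕ) {l y : ℕ} (h : y < l) : numA A l / 2 ^ (l - (y + 1)) % 2 = ch A y := by
  rw [numA_div A (show y + 1 ≤ l from h), numA]
  have := ch_lt A y
  omega

/-- The first column operator. -/
def R1 (e q : ℕ) (l : List ℕ) (_t : ℕ) : Prop :=
  ∃ n, n < q + 1 ∧ (2 ^ n ≤ q ∧ (q < 2 ^ (n + 1) ∧
    (lx e n = 2 ^ n ∨ ∃ y, y < lam e n ∧ Nat.pair y (1 - bit e n y) ∈ l)))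

theorem p_R1 : PrimrecPred fun p : (ℕ × ℕ × List ℕ) × ℕ => R1 p.1.1 p.1.2.1 p.1.2.2 p.2 := by
  unfold R1
  refine p_bex (p_add (p_fst (p_snd (p_fst p_id))) (p_const 1)) (p_and (p_le (p_pow (p_const 2)
    (p_snd p_id)) (p_fst (p_snd (p_fst (p_fst p_id))))) (p_and (p_lt (p_fst (p_snd (p_fst
    (p_fst p_id)))) (p_pow (p_const 2) (p_add (p_snd p_id) (p_const 1)))) (p_or
    (p_eq (p_lx (p_fst (p_fst (p_fst p_id))) (p_snd p_id)) (p_pow (p_const 2)
    (p_snd p_id))) ?_)))
  exact p_bex (p_lam (p_fst (p_fst (p_fst p_id))) (p_snd p_id)) (p_mem (p_pair (p_snd p_id)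
    (p_sub (p_const 1) (p_bit (p_fst (p_fst (p_fst (p_fst p_id)))) (p_snd (p_fst p_id))
    (p_snd p_id)))) (p_snd (p_snd (p_fst (p_fst (p_fst p_id))))))

theorem scale_unique {q n n' : ℕ} (h1 : 2 ^ n ≤ q) (h2 : q < 2 ^ (n + 1)) (h3 : 2 ^ n' ≤ q)
    (h4 : q < 2 ^ (n' + 1)) : n = n' := by
  have h5 := (Nat.pow_lt_pow_iff_right (by norm_num : 1 < 2)).1 (h1.trans_lt h4)
  have h6 := (Nat.pow_lt_pow_iff_right (by norm_num : 1 < 2)).1 (h3.trans_lt h2)
  omega

theorem exists_scale {q : ℕ} (h : 0 < q) : ∃ n, n < q + 1 ∧ 2 ^ n ≤ q ∧ q < 2 ^ (n + 1) := by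
  have h1 := Nat.pow_log_le_self 2 h.ne'
  refine ⟨Nat.log 2 q, ?_, h1, Nat.lt_pow_succ_log_self one_lt_two q⟩
  have := @Nat.lt_two_pow_self (Nat.log 2 q)
  omega

/-- The data used in the second part. -/
structure Approx (A : Set ℕ) (z : ℕ → ℕ → ℕ) (la : ℕ → ℕ) : Prop where
  pz : Primrec fun p : ℕ × ℕ => z p.1 p.2
  pl : Primrec la
  lt : ∀ n y, z n y < 2
  la_le : ∀ n, la n ≤ n - 1
  prev : ∀ n y, y < la n → z n y = z (n - 1) y
  tends : ∀ L, ∃ N, ∀ n, N ≤ n → L ≤ la n
  sm : Sm {y | ¬ ∃ N, ∀ n, N ≤ n → z n y = ch A y}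

theorem first {A : Set ℕ} (hA : ¬ Bd A) : ∃ z la, Approx A z la := by
  by_contra hcon
  have hd : ∀ X, Desc A X → ∀ i, Sm {q | ¬ Out R1 X i q} := by
    intro X hX e
    by_cases halive : Alive e
    · choose z N hN using fun y => bit_conv halive y
      by_cases h : ∃ y j, Nat.pair y j ∈ X ∧ z y ≠ j
      · obtain ⟨y, j, hj, hne⟩ := h
        obtain ⟨N', hN'⟩ := lam_tendsto halive (y + 1)
        refine sm_empty.mono (2 ^ (max (N y) N')) fun q hq hq' => hq' ?_
        obtain ⟨n, hn1, hn2, hn3⟩ := exists_scale (lt_of_lt_of_le (Nat.two_pow_pos _) hq)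
        have hn : max (N y) N' ≤ n := by
          have := (Nat.pow_lt_pow_iff_right (by norm_num : 1 < 2)).1 (hq.trans_lt hn3)
          omega
        have h1 := hN y n ((le_max_left _ _).trans hn)
        have h2 := hN' n ((le_max_right _ _).trans hn)
        refine ⟨[Nat.pair y j], by simpa using hj, 0, n, hn1, hn2, hn3, Or.inr ⟨y, by omega, ?_⟩⟩
        rw [h1]
        have h3 := mem_Gr.1 (hX.sub _ hj)
        have h4 := ch_lt A y
        have h5 := bit_lt e n y
        rw [h1] at h5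
        rw [show 1 - z y = j by omega]
        simp
      · push Not at h
        exfalso
        apply hcon
        refine ⟨bit e, lam e, ?_, p_lam (p_const e) p_id, bit_lt e, lam_le e,
          fun n y hy => bit_prev halive hy, lam_tendsto halive, ?_⟩
        · exact p_bit (p_const e) (p_fst p_id) (p_snd p_id)
        · refine hX.dens.mono 0 fun y _ hy => ?_
          rintro ⟨j, hj⟩
          apply hy
          refine ⟨N y, fun n hn => ?_⟩
          rw [hN y n hn, h y j hj]
          exact mem_Gr.1 (hX.sub _ hj)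
    · unfold Alive at halive
      push Not at halive
      obtain ⟨n₀, hn₀⟩ := halive
      have h1 := dead_mono (le_antisymm (lx_le e n₀) hn₀)
      refine sm_empty.mono (2 ^ n₀) fun q hq hq' => hq' ?_
      obtain ⟨n, hn1, hn2, hn3⟩ := exists_scale (lt_of_lt_of_le (Nat.two_pow_pos _) hq)
      have hn : n₀ ≤ n := by
        have := (Nat.pow_lt_pow_iff_right (by norm_num : 1 < 2)).1 (hq.trans_lt hn3)
        omega
      exact ⟨[], by simp, 0, n, hn1, hn2, hn3, Or.inl (h1 n hn)⟩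
  obtain ⟨v, hv1, hv2⟩ := key hA p_R1 hd
  -- the enumerated cones
  let cone : ℕ → ℕ → ℕ := fun e n => Nat.pair (lam e n) (lx e n / 2 ^ (n - lam e n))
  have hre : REPred fun x => ∃ e n q t, 2 ^ n ≤ q ∧ q < 2 ^ (n + 1) ∧ En v t (cod e q) ∧
      x = cone e n := by
    refine re_of_primrec (R := fun x w => 2 ^ w.unpair.2.unpair.1 ≤ w.unpair.2.unpair.2.unpair.1 ∧
      w.unpair.2.unpair.2.unpair.1 < 2 ^ (w.unpair.2.unpair.1 + 1) ∧
      En v w.unpair.2.unpair.2.unpair.2 (cod w.unpair.1 w.unpair.2.unpair.2.unpair.1) ∧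
      x = cone w.unpair.1 w.unpair.2.unpair.1) ?_ ?_
    · have a1 : Primrec fun p : ℕ × ℕ => p.2.unpair := p_unpair (p_snd p_id)
      have a2 := p_unpair (p_snd a1)
      have a3 := p_unpair (p_snd a2)
      have he := p_fst a1
      have hn := p_fst a2
      have hq := p_fst a3
      have ht := p_snd a3
      unfold cod
      refine p_and (p_le (p_pow (p_const 2) hn) hq) (p_and (p_lt hq (p_pow (p_const 2)
        (p_add hn (p_const 1)))) (p_and (p_En (p_const v) ht (p_mul (p_pow (p_const 2) he)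
        (p_add (p_mul (p_const 2) hq) (p_const 1)))) (p_eq (p_fst p_id) ?_)))
      exact p_pair (p_lam he hn) (p_div (p_lx he hn) (p_pow (p_const 2)
        (p_sub hn (p_lam he hn))))
    · intro x
      constructor
      · rintro ⟨e, n, q, t, h⟩
        refine ⟨Nat.pair e (Nat.pair n (Nat.pair q t)), ?_⟩
        simp only [Nat.unpair_pair]
        exact h
      · rintro ⟨w, h⟩
        exact ⟨_, _, _, _, h⟩
  obtain ⟨e, he⟩ := exists_En hre
  -- `A` is not in any enumerated cone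
  have hgood : ∀ n, good e n (numA A n) := by
    intro n l hl hEn
    rw [numA_div A (by omega)] at hEn
    obtain ⟨e', n', q, t, h1, h2, h3, h4⟩ := (he _).2 ⟨n, hEn⟩
    rw [Nat.pair_eq_pair] at h4
    obtain ⟨h5, h6⟩ := h4
    obtain ⟨L, hL, _, n'', _, h7, h8, h9⟩ := hv1 _ _ _ h3
    obtain rfl := scale_unique h1 h2 h7 h8
    have hle : lam e' n' ≤ n' := (lam_le _ _).trans (Nat.sub_le _ _)
    rcases h9 with h9 | ⟨y, hy, h9⟩
    · have h10 := numA_lt A l
      rw [h6, h9, h5, Nat.pow_div (by omega) (by norm_num),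
        show n' - (n' - lam e' n') = lam e' n' by omega] at h10
      exact lt_irrefl _ h10
    · have h10 := mem_Gr.1 (hL _ h9)
      have h11 := numA_bit A (show y < l by omega)
      rw [h6, h5, Nat.div_div_eq_div_mul, ← pow_add,
        show n' - lam e' n' + (lam e' n' - (y + 1)) = n' - 1 - y by omega] at h11
      have h12 := bit_lt e' n' y
      unfold bit at h10 h12
      omega
  have halive : Alive e := by
    intro n
    have h1 : lx e n ≤ numA A n := by
      by_contra h2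
      push Not at h2
      exact not_good_of_lt h2 (hgood n)
    exact h1.trans_lt (numA_lt A n)
  obtain ⟨n₀, hn₀⟩ := exists_mem_scale (T := {q | ∃ t, En v t (cod e q)}) (hv2 e)
  obtain ⟨n, hn, _, hn2⟩ := exists_true (lam_tendsto halive) n₀ 0
  obtain ⟨q, hq1, hq2, t, ht⟩ := hn₀ n hn
  obtain ⟨t', ht'⟩ := (he _).1 ⟨e, n, q, t, hq1, hq2, ht, rfl⟩
  have hle : lam e n ≤ n := (lam_le _ _).trans (Nat.sub_le _ _)
  have h1 := good_lx (halive (max n t')) (lam e n) (by have := le_max_left n t'; omega)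
  rw [pre_true halive hn2 (max n t') (le_max_left _ _)] at h1
  exact h1 (ht'.mono (le_max_right _ _))

end Pool.Agent.Helper92.Gen
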