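import Pool.Agent.Helper92.Gen.Dens

/-!
# Column operators and the key lemma
-/

open Filter

namespace Pool.Agent.Helper92.Gen

open Nat.Partrec (Code)

/-- The graph of the characteristic function of `A`. -/
def Gr (A : Set ℕ) : Set ℕ :=
  {x | ∃ n j : ℕ, x = Nat.pair n j ∧ ((j = 1 ∧ n ∈ A) ∨ (j = 0 ∧ n ∉ A))}

/-- Generic descriptions of `A`. -/
structure Desc (A X : Set ℕ) : Prop where
  sub : ∀ x ∈ X, x ∈ Gr A
  dens : Sm {n | ¬ ∃ j, Nat.pair n j ∈ X}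

/-- Generic computability, as in the frozen statement. -/
def GC (A : Set ℕ) : Prop :=
  ∃ φ : ℕ →. Bool, Partrec φ ∧
          (∀ n : ℕ, ∀ b ∈ φ n, (b = true ↔ n ∈ A)) ∧
          Tendsto (fun m : ℕ => ((({n : ℕ | (φ n).Dom} ∩ Set.Iio m).ncard : ℝ) / (m : ℝ)))
            atTop (nhds 1)

/-- The conclusion of the frozen statement. -/
def Bd (A : Set ℕ) : Prop :=
  ∃ B : Set ℕ,
        (∃ W : ℕ × List ℕ → Prop, REPred W ∧
          ∀ X : Set ℕ,
            ((∀ x ∈ X, ∃ n j : ℕ, x = Nat.pair n j ∧ ((j = 1 ∧ n ∈ A) ∨ (j = 0 ∧ n ∉ A))) ∧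
              Tendsto (fun m : ℕ =>
                ((({n : ℕ | ∃ j : ℕ, Nat.pair n j ∈ X} ∩ Set.Iio m).ncard : ℝ) / (m : ℝ)))
                atTop (nhds 1)) →
            ((∀ x ∈ {y : ℕ | ∃ l : List ℕ, (∀ z ∈ l, z ∈ X) ∧ W (y, l)},
                ∃ n j : ℕ, x = Nat.pair n j ∧ ((j = 1 ∧ n ∈ B) ∨ (j = 0 ∧ n ∉ B))) ∧
              Tendsto (fun m : ℕ =>
                ((({n : ℕ | ∃ j : ℕ, Nat.pair n j ∈
                    {y : ℕ | ∃ l : List ℕ, (∀ z ∈ l, z ∈ X) ∧ W (y, l)}} ∩ Set.Iio m).ncard : ℝ)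
                  / (m : ℝ)))
                atTop (nhds 1))) ∧
        (¬ ∃ φ : ℕ →. Bool, Partrec φ ∧
          (∀ n : ℕ, ∀ b ∈ φ n, (b = true ↔ n ∈ B)) ∧
          Tendsto (fun m : ℕ => ((({n : ℕ | (φ n).Dom} ∩ Set.Iio m).ncard : ℝ) / (m : ℝ)))
            atTop (nhds 1)) ∧
        Tendsto (fun m : ℕ => (((B ∩ Set.Iio m).ncard : ℝ) / (m : ℝ))) atTop (nhds 1)

/-- The output of the column operator with relation `R`. -/
def Out (R : ℕ → ℕ → List ℕ → ℕ → Prop) (X : Set ℕ) (i q : ℕ) : Prop :=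
  ∃ l : List ℕ, (∀ z ∈ l, z ∈ X) ∧ ∃ t, R i q l t

theorem Out.mono {R : ℕ → ℕ → List ℕ → ℕ → Prop} {X Y : Set ℕ} (h : ∀ x ∈ X, x ∈ Y) {i q : ℕ}
    (h1 : Out R X i q) : Out R Y i q := by
  obtain ⟨l, hl, h2⟩ := h1
  exact ⟨l, fun z hz => h z (hl z hz), h2⟩

theorem key {A : Set ℕ} (hA : ¬ Bd A) {R : ℕ → ℕ → List ℕ → ℕ → Prop}
    (hR : PrimrecPred fun p : (ℕ × ℕ × List ℕ) × ℕ => R p.1.1 p.1.2.1 p.1.2.2 p.2)
    (hd : ∀ X, Desc A X → ∀ i, Sm {q | ¬ Out R X i q}) :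
    ∃ e, (∀ i q t, En e t (cod i q) → Out R (Gr A) i q) ∧
      ∀ i, Sm {q | ¬ ∃ t, En e t (cod i q)} := by
  by_contra hcon
  apply hA
  have hGr : Desc A (Gr A) := by
    refine ⟨fun x hx => hx, ?_⟩
    refine sm_empty.mono 0 fun n _ hn => ?_
    apply hn
    by_cases h : n ∈ A
    · exact ⟨1, n, 1, rfl, Or.inl ⟨rfl, h⟩⟩
    · exact ⟨0, n, 0, rfl, Or.inr ⟨rfl, h⟩⟩
  refine ⟨{n | ∃ i q, n = cod i q ∧ Out R (Gr A) i q}, ⟨fun p => ∃ i q, p.1 = Nat.pair (cod i q) 1 ∧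
    ∃ t, R i q p.2 t, ?_, ?_⟩, ?_, ?_⟩
  · refine re_of_primrec (R := fun p t => p.1 = Nat.pair (cod t.unpair.1 t.unpair.2.unpair.1) 1 ∧
      R t.unpair.1 t.unpair.2.unpair.1 p.2 t.unpair.2.unpair.2) ?_ ?_
    · unfold cod
      have h1 : Primrec fun p : (ℕ × List ℕ) × ℕ => p.2.unpair.1 :=
        p_fst (p_unpair (p_snd p_id))
      have h2 : Primrec fun p : (ℕ × List ℕ) × ℕ => p.2.unpair.2.unpair.1 :=
        p_fst (p_unpair (p_snd (p_unpair (p_snd p_id))))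
      have h3 : Primrec fun p : (ℕ × List ℕ) × ℕ => p.2.unpair.2.unpair.2 :=
        p_snd (p_unpair (p_snd (p_unpair (p_snd p_id))))
      refine p_and (p_eq (p_fst (p_fst p_id)) (p_pair (p_mul (p_pow (p_const 2) h1)
        (p_add (p_mul (p_const 2) h2) (p_const 1))) (p_const 1))) ?_
      exact hR.comp ((h1.pair (h2.pair (p_snd (p_fst p_id)))).pair h3)
    · rintro ⟨y, l⟩
      constructor
      · rintro ⟨i, q, h1, t, h2⟩
        refine ⟨Nat.pair i (Nat.pair q t), ?_⟩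
        simp only [Nat.unpair_pair]
        exact ⟨h1, h2⟩
      · rintro ⟨t, h1, h2⟩
        exact ⟨_, _, h1, _, h2⟩
  · rintro X ⟨hX1, hX2⟩
    have hX : Desc A X := by
      refine ⟨hX1, ?_⟩
      rw [dens_iff_sm] at hX2
      exact hX2
    refine ⟨?_, ?_⟩
    · rintro x ⟨l, hl, i, q, h1, h2⟩
      refine ⟨cod i q, 1, h1, Or.inl ⟨rfl, i, q, rfl, ?_⟩⟩
      exact ⟨l, fun z hz => hX1 z (hl z hz), h2⟩
    · rw [dens_iff_sm]
      refine sm_of_cols fun i => (hd X hX i).mono 0 fun q _ hq => ?_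
      intro h1
      apply hq
      obtain ⟨l, hl, h2⟩ := h1
      exact ⟨1, l, hl, i, q, rfl, h2⟩
  · rintro ⟨φ, hφ, hφ1, hφ2⟩
    apply hcon
    rw [dens_iff_sm] at hφ2
    have h1 : Partrec fun a => (φ a).map fun b => (Encodable.encode b : ℕ) :=
      hφ.map (Computable.encode.comp Computable.snd).to₂
    obtain ⟨c, hc⟩ := Code.exists_code.1 (Partrec.nat_iff.1 h1)
    have h2 : ∀ n, true ∈ φ n ↔ ∃ t, Code.evaln t c n = some 1 := by
      intro n
      have h3 : true ∈ φ n ↔ 1 ∈ Code.eval c n := by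
        rw [hc]
        simp only [Part.mem_map_iff]
        constructor
        · intro h; exact ⟨true, h, rfl⟩
        · rintro ⟨b, hb, hb1⟩
          cases b
          · simp at hb1
          · exact hb
      rw [h3, Code.evaln_complete]
      rfl
    have h3 : REPred fun n => true ∈ φ n := by
      refine re_of_primrec (R := fun n t => Code.evaln t c n = some 1) ?_ h2
      exact Primrec.eq.comp (Code.primrec_evaln.comp ((Primrec.snd.pair (Primrec.const c)).pair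
        Primrec.fst)) (Primrec.const (some 1))
    obtain ⟨e, he⟩ := exists_En h3
    refine ⟨e, ?_, ?_⟩
    · intro i q t ht
      have h4 := (hφ1 _ _ ((he _).2 ⟨t, ht⟩)).1 rfl
      obtain ⟨i', q', h5, h6⟩ := h4
      obtain ⟨rfl, rfl⟩ := cod_inj h5
      exact h6
    · intro i
      have h4 : Sm ({q | cod i q ∈ {n : ℕ | (φ n).Dom}ᶜ} ∪ {q | ¬ Out R (Gr A) i q}) :=
        (hφ2.col i).union (hd _ hGr i)
      refine h4.mono 0 fun q _ hq => ?_
      by_contra h5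
      apply hq
      simp only [Set.mem_union, Set.mem_ofPred_eq, Set.mem_compl_iff, not_or, not_not] at h5
      obtain ⟨h6, h7⟩ := h5
      rw [← he]
      have h8 := Part.get_mem h6
      have h9 := (hφ1 _ _ h8).2 ⟨i, q, rfl, h7⟩
      rw [h9] at h8
      exact h8
  · rw [dens_iff_sm]
    refine sm_of_cols fun i => (hd _ hGr i).mono 0 fun q _ hq => ?_
    intro h1
    exact hq ⟨i, q, rfl, h1⟩

end Pool.Agent.Helper92.Gen
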