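import Mathlib

/-!
# Closure lemmas for primitive recursive functions and relations
-/

namespace Pool.Agent.Helper92.Gen

open Nat.Partrec (Code)

section prim

variable {α : Type*} [Primcodable α]

theorem p_id : Primrec fun a : α => a := Primrec.id

theorem p_const {β : Type*} [Primcodable β] (c : β) : Primrec fun _ : α => c := Primrec.const c

theorem p_fst {β γ : Type*} [Primcodable β] [Primcodable γ] {f : α → β × γ} (hf : Primrec f) :
    Primrec fun a => (f a).1 := Primrec.fst.comp hf

theorem p_snd {β γ : Type*} [Primcodable β] [Primcodable γ] {f : α → β × γ} (hf : Primrec f) :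
    Primrec fun a => (f a).2 := Primrec.snd.comp hf

variable {f g h : α → ℕ}

theorem p_add (hf : Primrec f) (hg : Primrec g) : Primrec fun a => f a + g a :=
  Primrec.nat_add.comp hf hg

theorem p_sub (hf : Primrec f) (hg : Primrec g) : Primrec fun a => f a - g a :=
  Primrec.nat_sub.comp hf hg

theorem p_mul (hf : Primrec f) (hg : Primrec g) : Primrec fun a => f a * g a :=
  Primrec.nat_mul.comp hf hg

theorem p_div (hf : Primrec f) (hg : Primrec g) : Primrec fun a => f a / g a :=
  Primrec.nat_div.comp hf hg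

theorem p_mod (hf : Primrec f) (hg : Primrec g) : Primrec fun a => f a % g a :=
  Primrec.nat_mod.comp hf hg

theorem p_pow₂ : Primrec₂ ((· ^ ·) : ℕ → ℕ → ℕ) := Primrec₂.unpaired'.1 Nat.Primrec.pow

theorem p_pow (hf : Primrec f) (hg : Primrec g) : Primrec fun a => f a ^ g a :=
  p_pow₂.comp hf hg

theorem p_pair (hf : Primrec f) (hg : Primrec g) : Primrec fun a => Nat.pair (f a) (g a) :=
  Primrec₂.natPair.comp hf hg

theorem p_unpair (hf : Primrec f) : Primrec fun a => Nat.unpair (f a) :=
  Primrec.unpair.comp hf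

theorem p_lt (hf : Primrec f) (hg : Primrec g) : PrimrecPred fun a => f a < g a :=
  Primrec.nat_lt.comp hf hg

theorem p_le (hf : Primrec f) (hg : Primrec g) : PrimrecPred fun a => f a ≤ g a :=
  Primrec.nat_le.comp hf hg

theorem p_eq (hf : Primrec f) (hg : Primrec g) : PrimrecPred fun a => f a = g a :=
  Primrec.eq.comp hf hg

theorem p_and {P Q : α → Prop} (hP : PrimrecPred P) (hQ : PrimrecPred Q) :
    PrimrecPred fun a => P a ∧ Q a := hP.and hQ

theorem p_or {P Q : α → Prop} (hP : PrimrecPred P) (hQ : PrimrecPred Q) :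
    PrimrecPred fun a => P a ∨ Q a := hP.or hQ

theorem p_not {P : α → Prop} (hP : PrimrecPred P) : PrimrecPred fun a => ¬ P a := hP.not

theorem p_imp {P Q : α → Prop} (hP : PrimrecPred P) (hQ : PrimrecPred Q) :
    PrimrecPred fun a => P a → Q a :=
  (hP.not.or hQ).of_eq fun a => by tauto

theorem p_ball {P : α → ℕ → Prop} (hf : Primrec f)
    (hP : PrimrecPred fun p : α × ℕ => P p.1 p.2) :
    PrimrecPred fun a => ∀ x, x < f a → P a x := by
  have h1 : PrimrecRel fun (x : ℕ) (a : α) => P a x := hP.comp (Primrec.snd.pair Primrec.fst)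
  have h2 := h1.forall_mem_list
  refine (h2.comp (Primrec.list_range.comp hf) Primrec.id).of_eq fun a => ?_
  simp

theorem p_bex {P : α → ℕ → Prop} (hf : Primrec f)
    (hP : PrimrecPred fun p : α × ℕ => P p.1 p.2) :
    PrimrecPred fun a => ∃ x, x < f a ∧ P a x := by
  have h1 : PrimrecRel fun (x : ℕ) (a : α) => P a x := hP.comp (Primrec.snd.pair Primrec.fst)
  have h2 := h1.exists_mem_list
  refine (h2.comp (Primrec.list_range.comp hf) Primrec.id).of_eq fun a => ?_
  simp

theorem p_mem {l : α → List ℕ} (hf : Primrec f) (hl : Primrec l) :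
    PrimrecPred fun a => f a ∈ l a := by
  have h1 : PrimrecRel fun (x : ℕ) (y : ℕ) => x = y := Primrec.eq
  refine (h1.exists_mem_list.comp hl hf).of_eq fun a => ?_
  simp

theorem p_findGreatest {P : α → ℕ → Prop} [∀ a, DecidablePred (P a)] (hf : Primrec f)
    (hP : PrimrecPred fun p : α × ℕ => P p.1 p.2) :
    Primrec fun a => Nat.findGreatest (P a) (f a) := by
  let _ : DecidableRel P := fun a b => inferInstance
  exact Primrec.nat_findGreatest hf hP

theorem p_count {P : α → ℕ → Prop} [∀ a, DecidablePred (P a)] (hf : Primrec f)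
    (hP : PrimrecPred fun p : α × ℕ => P p.1 p.2) :
    Primrec fun a => Nat.count (P a) (f a) := by
  have h1 : Primrec₂ fun (a : α) (p : ℕ × ℕ) => p.2 + if P a p.1 then 1 else 0 := by
    have h2 : PrimrecPred fun p : α × (ℕ × ℕ) => P p.1 p.2.1 :=
      hP.comp (Primrec.fst.pair (Primrec.fst.comp Primrec.snd))
    exact p_add (Primrec.snd.comp Primrec.snd) (Primrec.ite h2 (p_const 1) (p_const 0))
  refine (Primrec.nat_rec' hf (p_const 0) h1).of_eq fun a => ?_
  induction f a with
  | zero => simp
  | succ n ih => simp only [Nat.count_succ, ← ih]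

end prim

/-- Stage-by-stage enumeration of the `e`-th recursively enumerable set. -/
def En (e t x : ℕ) : Prop := (Code.evaln t (Denumerable.ofNat Code e) x).isSome = true

theorem p_En {α : Type*} [Primcodable α] {e t x : α → ℕ} (he : Primrec e) (ht : Primrec t)
    (hx : Primrec x) : PrimrecPred fun a => En (e a) (t a) (x a) := by
  have h1 : Primrec fun a => (Code.evaln (t a) (Denumerable.ofNat Code (e a)) (x a)).isSome :=
    Primrec.option_isSome.comp (Code.primrec_evaln.comp
      ((ht.pair ((Primrec.ofNat Code).comp he)).pair hx))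
  exact Primrec.eq.comp h1 (Primrec.const true)

theorem En.mono {e t t' x : ℕ} (h : t ≤ t') (h1 : En e t x) : En e t' x := by
  unfold En at *
  rw [Option.isSome_iff_exists] at *
  obtain ⟨y, hy⟩ := h1
  exact ⟨y, Code.evaln_mono h hy⟩

theorem En.bound {e t x : ℕ} (h1 : En e t x) : x < t := by
  unfold En at *
  rw [Option.isSome_iff_exists] at *
  obtain ⟨y, hy⟩ := h1
  exact Code.evaln_bound hy

/-- Normal form for the recursively enumerable predicates we need. -/
theorem re_of_primrec {α : Type*} [Primcodable α] {P : α → Prop} {R : α → ℕ → Prop}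
    (hR : PrimrecPred fun p : α × ℕ => R p.1 p.2) (h : ∀ a, P a ↔ ∃ t, R a t) : REPred P := by
  classical
  have h1 : Computable₂ fun (a : α) (t : ℕ) => decide (R a t) := by
    have h2 : Primrec fun p : α × ℕ => decide (R p.1 p.2) := hR.decide
    exact h2.to_comp.to₂
  have h2 : Partrec fun a => Nat.rfind fun t => (Part.some (decide (R a t)) : Part Bool) :=
    Partrec.rfind h1.partrec₂
  refine h2.dom_re.of_eq fun a => ?_
  rw [h a]
  simp [Nat.rfind_dom]

theorem exists_En {P : ℕ → Prop} (h : REPred P) : ∃ e, ∀ x, P x ↔ ∃ t, En e t x := by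
  unfold REPred at h
  have h1 : Partrec fun a => ((Part.assert (P a) fun _ => Part.some ()).map fun _ => (0 : ℕ)) :=
    h.map (Computable.const 0).to₂
  obtain ⟨c, hc⟩ := Code.exists_code.1 (Partrec.nat_iff.1 h1)
  refine ⟨Encodable.encode c, fun x => ?_⟩
  have h2 : P x ↔ (Code.eval c x).Dom := by rw [hc]; simp [Part.assert]
  rw [h2]
  unfold En
  simp only [Denumerable.ofNat_encode, Option.isSome_iff_exists]
  rw [Part.dom_iff_mem]
  constructor
  · rintro ⟨y, hy⟩
    obtain ⟨k, hk⟩ := Code.evaln_complete.1 hy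
    exact ⟨k, y, hk⟩
  · rintro ⟨k, y, hk⟩
    exact ⟨y, Code.evaln_complete.2 ⟨k, hk⟩⟩

end Pool.Agent.Helper92.Gen
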