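import Pool.Agent.Helper92.Gen.First

/-!
# Second part: from limit computable approximations to thin ones
-/

open Filter

namespace Pool.Agent.Helper92.Gen

section

variable {A : Set ℕ} {z : ℕ → ℕ → ℕ} {la : ℕ → ℕ}

theorem p_cod {α : Type*} [Primcodable α] {i q : α → ℕ} (hi : Primrec i) (hq : Primrec q) :
    Primrec fun a => cod (i a) (q a) :=
  p_mul (p_pow (p_const 2) hi) (p_add (p_mul (p_const 2) hq) (p_const 1))

theorem p_la {α : Type*} [Primcodable α] (hz : Approx A z la) {n : α → ℕ} (hn : Primrec n) :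
    Primrec fun a => la (n a) := hz.pl.comp hn

theorem p_z {α : Type*} [Primcodable α] (hz : Approx A z la) {n y : α → ℕ} (hn : Primrec n)
    (hy : Primrec y) : Primrec fun a => z (n a) (y a) := hz.pz.comp (hn.pair hy)

/-- The last earlier stage which looks true. -/
def prv (la : ℕ → ℕ) (n : ℕ) : ℕ := Nat.findGreatest (fun m => la m ≤ la n) (n - 1)

theorem p_prv {α : Type*} [Primcodable α] (hl : Primrec la) {n : α → ℕ} (hn : Primrec n) :
    Primrec fun a => prv la (n a) := by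
  unfold prv
  have h1 : Primrec fun p : α × ℕ => la p.2 := hl.comp Primrec.snd
  have h2 : Primrec fun p : α × ℕ => la (n p.1) := hl.comp (hn.comp Primrec.fst)
  exact p_findGreatest (p_sub hn (p_const 1)) (p_le h1 h2)

/-- A true stage. -/
def Tru (la : ℕ → ℕ) (n : ℕ) : Prop := ∀ t, n < t → la n ≤ la t

/-- The second column operator. -/
def R2 (z : ℕ → ℕ → ℕ) (la : ℕ → ℕ) (i q : ℕ) (l : List ℕ) (t : ℕ) : Prop :=
  ∃ n, n < q + 1 ∧ (2 ^ n ≤ q ∧ (q < 2 ^ (n + 1) ∧
    ((∀ s, s < n + 1 → (la (prv la n) < 2 ^ (s + 1) → (2 ^ (s + 1) ≤ la n →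
        Nat.count (fun y => 2 ^ s ≤ y ∧ ¬ Nat.pair y (z n y) ∈ l) (2 ^ (s + 1)) *
          2 ^ i.unpair.2 ≤ 2 ^ s))) ∨
      (n < t ∧ (la t < la n ∧ ((∀ t', t' < t → (n < t' → la n ≤ la t')) ∧
        ¬ (En i.unpair.1 t (cod i q) ∧
          ∀ q', q' < q → (2 ^ n ≤ q' → ¬ En i.unpair.1 t (cod i q')))))))))

theorem p_R2 (hz : Approx A z la) :
    PrimrecPred fun p : (ℕ × ℕ × List ℕ) × ℕ => R2 z la p.1.1 p.1.2.1 p.1.2.2 p.2 := by
  unfold R2
  exact
    (p_bex (p_add (p_fst (p_snd (p_fst p_id))) (p_const 1)) (p_and (p_le (p_pow (p_const 2)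
    (p_snd p_id)) (p_fst (p_snd (p_fst (p_fst p_id))))) (p_and (p_lt (p_fst (p_snd (p_fst
    (p_fst p_id)))) (p_pow (p_const 2) (p_add (p_snd p_id) (p_const 1)))) (p_or (p_ball (p_add
    (p_snd p_id) (p_const 1)) (p_imp (p_lt (p_la hz (p_prv hz.pl (p_snd (p_fst p_id)))) (p_pow
    (p_const 2) (p_add (p_snd p_id) (p_const 1)))) (p_imp (p_le (p_pow (p_const 2) (p_add
    (p_snd p_id) (p_const 1))) (p_la hz (p_snd (p_fst p_id)))) (p_le (p_mul (p_count (p_pow
    (p_const 2) (p_add (p_snd p_id) (p_const 1))) (p_and (p_le (p_pow (p_const 2) (p_snd (p_fst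
    p_id))) (p_snd p_id)) (p_not (p_mem (p_pair (p_snd p_id) (p_z hz (p_snd (p_fst (p_fst
    p_id))) (p_snd p_id))) (p_snd (p_snd (p_fst (p_fst (p_fst (p_fst p_id)))))))))) (p_pow
    (p_const 2) (p_snd (p_unpair (p_fst (p_fst (p_fst (p_fst p_id)))))))) (p_pow (p_const 2)
    (p_snd p_id)))))) (p_and (p_lt (p_snd p_id) (p_snd (p_fst p_id))) (p_and (p_lt (p_la hz
    (p_snd (p_fst p_id))) (p_la hz (p_snd p_id))) (p_and (p_ball (p_snd (p_fst p_id)) (p_imp
    (p_lt (p_snd (p_fst p_id)) (p_snd p_id)) (p_le (p_la hz (p_snd (p_fst p_id))) (p_la hz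
    (p_snd p_id))))) (p_not (p_and (p_En (p_fst (p_unpair (p_fst (p_fst (p_fst p_id))))) (p_snd
    (p_fst p_id)) (p_cod (p_fst (p_fst (p_fst p_id))) (p_fst (p_snd (p_fst (p_fst p_id))))))
    (p_ball (p_fst (p_snd (p_fst (p_fst p_id)))) (p_imp (p_le (p_pow (p_const 2) (p_snd (p_fst
    p_id))) (p_snd p_id)) (p_not (p_En (p_fst (p_unpair (p_fst (p_fst (p_fst (p_fst p_id))))))
    (p_snd (p_fst (p_fst p_id))) (p_cod (p_fst (p_fst (p_fst (p_fst p_id)))) (p_snd
    p_id)))))))))))))))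

/-- The approximations found in the second part. -/
def DD (la : ℕ → ℕ) (e k s w : ℕ) : Prop :=
  w.unpair.1 ≤ w.unpair.2 ∧ (s < w.unpair.1 + 1 ∧ (la (prv la w.unpair.1) < 2 ^ (s + 1) ∧
    (2 ^ (s + 1) ≤ la w.unpair.1 ∧
    ((∃ q, q < 2 ^ (w.unpair.1 + 1) ∧ (2 ^ w.unpair.1 ≤ q ∧
      En e w.unpair.2 (cod (Nat.pair e k) q))) ∧
    ∀ t, t < w.unpair.2 + 1 → (w.unpair.1 < t → la w.unpair.1 ≤ la t)))))

theorem p_DD (hz : Approx A z la) (e : ℕ) :
    PrimrecPred fun p : (ℕ × ℕ) × ℕ => DD la e p.1.1 p.1.2 p.2 := by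
  unfold DD
  exact
    (p_and (p_le (p_fst (p_unpair (p_snd p_id))) (p_snd (p_unpair (p_snd p_id)))) (p_and (p_lt
    (p_snd (p_fst p_id)) (p_add (p_fst (p_unpair (p_snd p_id))) (p_const 1))) (p_and (p_lt
    (p_la hz (p_prv hz.pl (p_fst (p_unpair (p_snd p_id))))) (p_pow (p_const 2) (p_add (p_snd
    (p_fst p_id)) (p_const 1)))) (p_and (p_le (p_pow (p_const 2) (p_add (p_snd (p_fst p_id))
    (p_const 1))) (p_la hz (p_fst (p_unpair (p_snd p_id))))) (p_and (p_bex (p_pow (p_const 2)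
    (p_add (p_fst (p_unpair (p_snd p_id))) (p_const 1))) (p_and (p_le (p_pow (p_const 2) (p_fst
    (p_unpair (p_snd (p_fst p_id))))) (p_snd p_id)) (p_En (p_const e) (p_snd (p_unpair (p_snd
    (p_fst p_id)))) (p_cod (p_pair (p_const e) (p_fst (p_fst (p_fst p_id)))) (p_snd p_id)))))
    (p_ball (p_add (p_snd (p_unpair (p_snd p_id))) (p_const 1)) (p_imp (p_lt (p_fst (p_unpair
    (p_snd (p_fst p_id)))) (p_snd p_id)) (p_le (p_la hz (p_fst (p_unpair (p_snd (p_fst
    p_id))))) (p_la hz (p_snd p_id))))))))))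

theorem prv_le (n : ℕ) : prv la n ≤ n - 1 := Nat.findGreatest_le _

theorem la_prv_le (hz : Approx A z la) (n : ℕ) : la (prv la n) ≤ la n := by
  refine Nat.findGreatest_spec (P := fun m => la m ≤ la n) (Nat.zero_le _) ?_
  have := hz.la_le 0
  show la 0 ≤ la n
  omega

theorem lt_of_prv_lt {n m : ℕ} (h1 : prv la n < m) (h2 : m ≤ n - 1) : la n < la m :=
  not_le.1 (Nat.findGreatest_is_greatest (P := fun m => la m ≤ la n) h1 h2)

theorem tru_prv (hz : Approx A z la) {n : ℕ} (h : Tru la n) : Tru la (prv la n) := by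
  intro t ht
  have h1 := la_prv_le hz n
  rcases le_or_gt t (n - 1) with h2 | h2
  · exact h1.trans (lt_of_prv_lt ht h2).le
  · rcases Nat.eq_or_lt_of_le (show n ≤ t by omega) with h3 | h3
    · rwa [← h3]
    · exact h1.trans (h t h3)

theorem prv_large (hz : Approx A z la) (L : ℕ) :
    ∃ n₀, ∀ n, n₀ ≤ n → Tru la n → L ≤ la (prv la n) := by
  obtain ⟨m, _, hm1, hm2⟩ := exists_true hz.tends 0 L
  refine ⟨m + 1, fun n hn _ => ?_⟩
  have h1 : m ≤ prv la n := Nat.le_findGreatest (by omega) (hm2 n (by omega))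
  rcases Nat.eq_or_lt_of_le h1 with h2 | h2
  · rwa [← h2]
  · exact hm1.trans (hm2 _ h2)

theorem z_true (hz : Approx A z la) {n : ℕ} (h : Tru la n) {y : ℕ} (hy : y < la n) :
    ∀ t, n ≤ t → z t y = z n y := by
  intro t ht
  induction t, ht using Nat.le_induction with
  | base => rfl
  | succ t htn ih =>
    rw [hz.prev (t + 1) y (hy.trans_le (h (t + 1) (by omega))), Nat.add_sub_cancel, ih]

theorem count_eq (P : ℕ → Prop) [DecidablePred P] (s : ℕ) :
    Nat.count (fun y => 2 ^ s ≤ y ∧ P y) (2 ^ (s + 1)) = cnt {y | P y} s := by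
  rw [Nat.count_eq_card_filter_range]
  unfold cnt
  congr 1
  ext y
  simp only [Finset.mem_filter, Finset.mem_range, Finset.mem_Ico, Set.mem_ofPred_eq]
  tauto

theorem second_dens (hz : Approx A z la) {X : Set ℕ} (hX : Desc A X) (i : ℕ) :
    Sm {q | ¬ Out (R2 z la) X i q} := by
  classical
  obtain ⟨s₀, hs₀⟩ := (hz.sm.union hX.dens) i.unpair.2
  obtain ⟨n₀, hn₀⟩ := prv_large hz (2 ^ s₀)
  refine sm_of_le_one n₀ fun n hn => ?_
  by_cases htr : Tru la n
  · refine cnt_le_one fun q q' h1 h2 _ _ h3 _ => absurd ?_ h3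
    refine ⟨((List.range (la n)).map fun y => Nat.pair y (z n y)).filter (· ∈ X), ?_, 0, n, ?_,
      h1, h2, Or.inl ?_⟩
    · intro x hx
      have := (List.mem_filter.1 hx).2
      simpa using this
    · have := @Nat.lt_two_pow_self n
      omega
    · intro s _ hs1 hs2
      have hs : s₀ ≤ s := by
        have := (Nat.pow_lt_pow_iff_right (by norm_num : 1 < 2)).1
          ((hn₀ n hn htr).trans_lt hs1)
        omega
      rw [count_eq]
      refine le_trans (Nat.mul_le_mul_right _ (cnt_mono s fun y _ hy hy1 => ?_)) (hs₀ s hs)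
      have hyn : y < la n := hy.trans_le hs2
      by_contra hcon
      simp only [Set.mem_union, Set.mem_ofPred_eq, not_or, not_not] at hcon
      obtain ⟨⟨N, hN⟩, j, hj⟩ := hcon
      have h4 := hN (max N n) (le_max_left _ _)
      rw [z_true hz htr hyn _ (le_max_right _ _)] at h4
      apply hy1
      rw [List.mem_filter]
      refine ⟨List.mem_map.2 ⟨y, List.mem_range.2 hyn, rfl⟩, ?_⟩
      rw [h4, ← mem_Gr.1 (hX.sub _ hj)]
      simpa using hj
  · unfold Tru at htr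
    push Not at htr
    have hex : ∃ t, n < t ∧ la t < la n := htr
    have h1 := Nat.find_spec hex
    have h2 : ∀ t', t' < Nat.find hex → n < t' → la n ≤ la t' := by
      intro t' ht' hn'
      by_contra h3
      exact Nat.find_min hex ht' ⟨hn', not_le.1 h3⟩
    generalize Nat.find hex = t at h1 h2
    have key : ∀ q, 2 ^ n ≤ q → q < 2 ^ (n + 1) → ¬ Out (R2 z la) X i q →
        En i.unpair.1 t (cod i q) ∧ ∀ q', q' < q → 2 ^ n ≤ q' → ¬ En i.unpair.1 t (cod i q') := by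
      intro q hq1 hq2 hq3
      by_contra h4
      apply hq3
      refine ⟨[], by simp, t, n, ?_, hq1, hq2, Or.inr ⟨h1.1, h1.2, h2, h4⟩⟩
      have := @Nat.lt_two_pow_self n
      omega
    refine cnt_le_one fun q q' hq1 hq2 hq1' hq2' h3 h4 => ?_
    have h5 := key q hq1 hq2 h3
    have h6 := key q' hq1' hq2' h4
    rcases lt_trichotomy q q' with h7 | h7 | h7
    · exact absurd h5.1 (h6.2 q h7 hq1)
    · exact h7
    · exact absurd h6.1 (h5.2 q' h7 hq1')

end

/-- The data used in the third part. -/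
structure Thin (A : Set ℕ) (c : ℕ → ℕ → ℕ) (D : ℕ → ℕ → ℕ → Prop) : Prop where
  pc : Primrec fun p : ℕ × ℕ => c p.1 p.2
  pD : PrimrecPred fun p : (ℕ × ℕ) × ℕ => D p.1.1 p.1.2 p.2
  lt : ∀ w y, c w y < 2
  err : ∀ k s w, D k s w → cnt {y | c w y ≠ ch A y} s * 2 ^ k ≤ 2 ^ s
  ex : ∀ k, ∃ s₀, ∀ s, s₀ ≤ s → ∃ w, D k s w

theorem second {A : Set ℕ} (hA : ¬ Bd A) {z : ℕ → ℕ → ℕ} {la : ℕ → ℕ} (hz : Approx A z la) :
    ∃ c D, Thin A c D := by
  obtain ⟨e, he1, he2⟩ := key hA (p_R2 hz) fun X hX i => second_dens hz hX i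
  refine ⟨fun w y => z w.unpair.1 y, DD la e, ?_, p_DD hz e, fun w y => hz.lt _ _, ?_, ?_⟩
  · exact p_z hz (p_fst (p_unpair (p_fst p_id))) (p_snd p_id)
  · rintro k s w ⟨h1, h2, h3, h4, ⟨q, hq1, hq2, hq3⟩, h5⟩
    generalize w.unpair.1 = n at *
    generalize w.unpair.2 = v at *
    -- it is enough to have the first alternative for some element of the scale
    have main : ∀ l : List ℕ, (∀ x ∈ l, x ∈ Gr A) →
        (∀ s, s < n + 1 → la (prv la n) < 2 ^ (s + 1) → 2 ^ (s + 1) ≤ la n →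
        Nat.count (fun y => 2 ^ s ≤ y ∧ ¬ Nat.pair y (z n y) ∈ l) (2 ^ (s + 1)) *
          2 ^ (Nat.pair e k).unpair.2 ≤ 2 ^ s) → cnt {y | z n y ≠ ch A y} s * 2 ^ k ≤ 2 ^ s := by
      intro l hl h
      have h6 := h s h2 h3 h4
      rw [count_eq, Nat.unpair_pair] at h6
      refine le_trans (Nat.mul_le_mul_right _ (cnt_mono s fun y _ _ hy => ?_)) h6
      intro h7
      exact hy (mem_Gr.1 (hl _ h7))
    obtain ⟨l, hl, t, n', _, h6, h7, h8⟩ := he1 _ _ _ hq3
    obtain rfl := scale_unique hq2 hq1 h6 h7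
    rcases h8 with h8 | ⟨h8, h9, h10, _⟩
    · exact main l hl h8
    · have htv : v < t := by
        by_contra h11
        have := h5 t (by omega) h8
        omega
      have hex : ∃ q, 2 ^ n ≤ q ∧ q < 2 ^ (n + 1) ∧ En e t (cod (Nat.pair e k) q) :=
        ⟨q, hq2, hq1, hq3.mono htv.le⟩
      classical
      obtain ⟨g1, g2, g3⟩ := Nat.find_spec hex
      have g4 : ∀ q', q' < Nat.find hex → 2 ^ n ≤ q' → ¬ En e t (cod (Nat.pair e k) q') :=
        fun q' h11 h12 h13 => Nat.find_min hex h11 ⟨h12, h11.trans g2, h13⟩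
      generalize Nat.find hex = q₀ at g1 g2 g3 g4
      obtain ⟨l', hl', t', n', _, k6, k7, k8⟩ := he1 _ _ _ g3
      obtain rfl := scale_unique g1 g2 k6 k7
      rcases k8 with k8 | ⟨k8, k9, k10, k11⟩
      · exact main l' hl' k8
      · have htt : t = t' := by
          rcases lt_trichotomy t t' with h11 | h11 | h11
          · have := k10 t h11 h8; omega
          · exact h11
          · have := h10 t' h11 k8; omega
        subst htt
        simp only [Nat.unpair_pair] at k11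
        exact absurd ⟨g3, g4⟩ k11
  · intro k
    obtain ⟨n₀, hn₀⟩ := exists_mem_scale (T := {q | ∃ t, En e t (cod (Nat.pair e k) q)})
      (he2 (Nat.pair e k))
    refine ⟨n₀, fun s hs => ?_⟩
    have hex : ∃ n, 2 ^ (s + 1) ≤ la n ∧ Tru la n := by
      obtain ⟨n, _, h1, h2⟩ := exists_true hz.tends 0 (2 ^ (s + 1))
      exact ⟨n, h1, h2⟩
    classical
    have h1 := Nat.find_spec hex
    have h2 : ∀ m, m < Nat.find hex → ¬ (2 ^ (s + 1) ≤ la m ∧ Tru la m) :=
      fun m hm => Nat.find_min hex hm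
    generalize Nat.find hex = n at h1 h2
    have h3 := hz.la_le n
    have h4 := @Nat.lt_two_pow_self (s + 1)
    have h5 : prv la n < n := by
      have := prv_le (la := la) n
      omega
    have h6 : la (prv la n) < 2 ^ (s + 1) := by
      by_contra h7
      exact h2 _ h5 ⟨not_lt.1 h7, tru_prv hz h1.2⟩
    obtain ⟨q, hq1, hq2, t, hq3⟩ := hn₀ n (by omega)
    refine ⟨Nat.pair n (max n t), ?_⟩
    unfold DD
    simp only [Nat.unpair_pair]
    exact ⟨le_max_left _ _, by omega, h6, h1.1, ⟨q, hq2, hq1, hq3.mono (le_max_right _ _)⟩,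
      fun t' _ ht' => h1.2 t' ht'⟩

end Pool.Agent.Helper92.Gen
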