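import Pool.Agent.Helper92.Gen.Second

/-!
# Third part: the thin case
-/

open Filter

namespace Pool.Agent.Helper92.Gen

section

variable {A : Set ℕ} {c : ℕ → ℕ → ℕ} {D : ℕ → ℕ → ℕ → Prop}

theorem p_D {α : Type*} [Primcodable α] (hz : Thin A c D) {k s w : α → ℕ} (hk : Primrec k)
    (hs : Primrec s) (hw : Primrec w) : PrimrecPred fun a => D (k a) (s a) (w a) :=
  hz.pD.comp ((hk.pair hs).pair hw)

theorem p_c {α : Type*} [Primcodable α] (hz : Thin A c D) {w y : α → ℕ} (hw : Primrec w)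
    (hy : Primrec y) : Primrec fun a => c (w a) (y a) := hz.pc.comp (hw.pair hy)

/-- `b` is one of the values at `y` proposed by stage `t` by approximations of quality at
least `j`. -/
def Vl (c : ℕ → ℕ → ℕ) (D : ℕ → ℕ → ℕ → Prop) (t j y b : ℕ) : Prop :=
  ∃ s, s < y + 1 ∧ (2 ^ s ≤ y ∧ (y < 2 ^ (s + 1) ∧ ∃ k, k < t + 1 ∧ (j ≤ k ∧
    ∃ w, w < t + 1 ∧ (D k s w ∧ ((∀ w', w' < w → ¬ D k s w') ∧ c w y = b)))))

theorem p_Vl {α : Type*} [Primcodable α] (hz : Thin A c D) {t j y b : α → ℕ} (ht : Primrec t)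
    (hj : Primrec j) (hy : Primrec y) (hb : Primrec b) :
    PrimrecPred fun a => Vl c D (t a) (j a) (y a) (b a) := by
  unfold Vl
  exact
    (p_bex (p_add hy (p_const 1)) (p_and (p_le (p_pow (p_const 2) (p_snd p_id)) (hy.comp (p_fst
    p_id))) (p_and (p_lt (hy.comp (p_fst p_id)) (p_pow (p_const 2) (p_add (p_snd p_id) (p_const
    1)))) (p_bex (p_add (ht.comp (p_fst p_id)) (p_const 1)) (p_and (p_le (hj.comp (p_fst (p_fst
    p_id))) (p_snd p_id)) (p_bex (p_add (ht.comp (p_fst (p_fst p_id))) (p_const 1)) (p_and (p_D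
    hz (p_snd (p_fst p_id)) (p_snd (p_fst (p_fst p_id))) (p_snd p_id)) (p_and (p_ball (p_snd
    p_id) (p_not (p_D hz (p_snd (p_fst (p_fst p_id))) (p_snd (p_fst (p_fst (p_fst p_id))))
    (p_snd p_id)))) (p_eq (p_c hz (p_snd p_id) (hy.comp (p_fst (p_fst (p_fst p_id))))) (hb.comp
    (p_fst (p_fst (p_fst p_id)))))))))))))

/-- `y` is frozen by stage `t`. -/
def Fz (c : ℕ → ℕ → ℕ) (D : ℕ → ℕ → ℕ → Prop) (i t y : ℕ) : Prop :=
  En i.unpair.1 t (cod i y) ∧ ∃ b, b < 2 ∧ Vl c D t i.unpair.2 y b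

theorem p_Fz {α : Type*} [Primcodable α] (hz : Thin A c D) {i t y : α → ℕ} (hi : Primrec i)
    (ht : Primrec t) (hy : Primrec y) :
    PrimrecPred fun a => Fz c D (i a) (t a) (y a) := by
  unfold Fz
  exact
    (p_and (p_En (p_fst (p_unpair hi)) ht (p_cod hi hy)) (p_bex (p_const 2) (p_Vl hz (ht.comp
    (p_fst p_id)) (p_snd (p_unpair (hi.comp (p_fst p_id)))) (hy.comp (p_fst p_id)) (p_snd
    p_id))))

/-- The third column operator. -/
def R3 (c : ℕ → ℕ → ℕ) (D : ℕ → ℕ → ℕ → Prop) (i y : ℕ) (l : List ℕ) (t : ℕ) : Prop :=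
  ((∃ b, b < 2 ∧ (Nat.pair y b ∈ l ∧ Vl c D t i.unpair.2 y b)) ∧
      ∀ t', t' < t → ¬ Fz c D i t' y) ∨
    ((∃ y', y' < t ∧ (Fz c D i t y' ∧ ((∀ t', t' < t → ¬ Fz c D i t' y') ∧
      ∃ b, b < 2 ∧ (Nat.pair y' b ∈ l ∧ ¬ Vl c D t i.unpair.2 y' b)))) ∧ ¬ Fz c D i t y)

theorem p_R3 (hz : Thin A c D) :
    PrimrecPred fun p : (ℕ × ℕ × List ℕ) × ℕ => R3 c D p.1.1 p.1.2.1 p.1.2.2 p.2 := by
  unfold R3
  exact
    (p_or (p_and (p_bex (p_const 2) (p_and (p_mem (p_pair (p_fst (p_snd (p_fst (p_fst p_id))))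
    (p_snd p_id)) (p_snd (p_snd (p_fst (p_fst p_id))))) (p_Vl hz (p_snd (p_fst p_id)) (p_snd
    (p_unpair (p_fst (p_fst (p_fst p_id))))) (p_fst (p_snd (p_fst (p_fst p_id)))) (p_snd
    p_id)))) (p_ball (p_snd p_id) (p_not (p_Fz hz (p_fst (p_fst (p_fst p_id))) (p_snd p_id)
    (p_fst (p_snd (p_fst (p_fst p_id)))))))) (p_and (p_bex (p_snd p_id) (p_and (p_Fz hz (p_fst
    (p_fst (p_fst p_id))) (p_snd (p_fst p_id)) (p_snd p_id)) (p_and (p_ball (p_snd (p_fst
    p_id)) (p_not (p_Fz hz (p_fst (p_fst (p_fst (p_fst p_id)))) (p_snd p_id) (p_snd (p_fst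
    p_id))))) (p_bex (p_const 2) (p_and (p_mem (p_pair (p_snd (p_fst p_id)) (p_snd p_id))
    (p_snd (p_snd (p_fst (p_fst (p_fst p_id)))))) (p_not (p_Vl hz (p_snd (p_fst (p_fst p_id)))
    (p_snd (p_unpair (p_fst (p_fst (p_fst (p_fst p_id)))))) (p_snd (p_fst p_id)) (p_snd
    p_id)))))))) (p_not (p_Fz hz (p_fst (p_fst p_id)) (p_snd p_id) (p_fst (p_snd (p_fst
    p_id)))))))

/-- The relation defining the partial computable function. -/
def GG (c : ℕ → ℕ → ℕ) (D : ℕ → ℕ → ℕ → Prop) (e y m : ℕ) : Prop :=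
  m.unpair.1 < 2 ∧ (Fz c D (Nat.pair e m.unpair.2.unpair.1) m.unpair.2.unpair.2 y ∧
    ((∀ t', t' < m.unpair.2.unpair.2 → ¬ Fz c D (Nat.pair e m.unpair.2.unpair.1) t' y) ∧
      (Vl c D m.unpair.2.unpair.2 m.unpair.2.unpair.1 y m.unpair.1 ∧
        ¬ Vl c D m.unpair.2.unpair.2 m.unpair.2.unpair.1 y (1 - m.unpair.1))))

theorem p_GG (hz : Thin A c D) (e : ℕ) :
    PrimrecPred fun p : ℕ × ℕ => GG c D e p.1 p.2 := by
  unfold GG
  exact
    (p_and (p_lt (p_fst (p_unpair (p_snd p_id))) (p_const 2)) (p_and (p_Fz hz (p_pair (p_const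
    e) (p_fst (p_unpair (p_snd (p_unpair (p_snd p_id)))))) (p_snd (p_unpair (p_snd (p_unpair
    (p_snd p_id))))) (p_fst p_id)) (p_and (p_ball (p_snd (p_unpair (p_snd (p_unpair (p_snd
    p_id))))) (p_not (p_Fz hz (p_pair (p_const e) (p_fst (p_unpair (p_snd (p_unpair (p_snd
    (p_fst p_id))))))) (p_snd p_id) (p_fst (p_fst p_id))))) (p_and (p_Vl hz (p_snd (p_unpair
    (p_snd (p_unpair (p_snd p_id))))) (p_fst (p_unpair (p_snd (p_unpair (p_snd p_id))))) (p_fst
    p_id) (p_fst (p_unpair (p_snd p_id)))) (p_not (p_Vl hz (p_snd (p_unpair (p_snd (p_unpair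
    (p_snd p_id))))) (p_fst (p_unpair (p_snd (p_unpair (p_snd p_id))))) (p_fst p_id) (p_sub
    (p_const 1) (p_fst (p_unpair (p_snd p_id))))))))))

theorem Vl.mono {t t' j y b : ℕ} (h : t ≤ t') (h1 : Vl c D t j y b) : Vl c D t' j y b := by
  obtain ⟨s, h2, h3, h4, k, h5, h6, w, h7, h8⟩ := h1
  exact ⟨s, h2, h3, h4, k, by omega, h6, w, by omega, h8⟩

theorem Fz.mono {t t' i y : ℕ} (h : t ≤ t') (h1 : Fz c D i t y) : Fz c D i t' y := by
  obtain ⟨h2, b, h3, h4⟩ := h1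
  exact ⟨h2.mono h, b, h3, h4.mono h⟩

theorem exists_least {P : ℕ → Prop} (h : ∃ n, P n) : ∃ n, P n ∧ ∀ m, m < n → ¬ P m := by
  classical
  exact ⟨Nat.find h, Nat.find_spec h, fun m hm => Nat.find_min h hm⟩

theorem third_dens (hz : Thin A c D) {X : Set ℕ} (hX : Desc A X) (i : ℕ) :
    Sm {y | ¬ Out (R3 c D) X i y} := by
  by_cases hc : ∃ y' t, Fz c D i t y' ∧ (∀ t', t' < t → ¬ Fz c D i t' y') ∧
      ∃ b, b < 2 ∧ Nat.pair y' b ∈ X ∧ ¬ Vl c D t i.unpair.2 y' b
  · obtain ⟨y', t, h1, h2, b, h3, h4, h5⟩ := hc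
    refine sm_empty.mono t fun y hy hy' => hy' ?_
    have h6 := h1.1.bound
    have h7 := le_cod i y'
    refine ⟨[Nat.pair y' b], by simpa using h4, t, Or.inr ⟨⟨y', by omega, h1, h2, b, h3,
      by simp, h5⟩, ?_⟩⟩
    intro h8
    have h9 := h8.1.bound
    have h10 := le_cod i y
    omega
  · push Not at hc
    intro K
    obtain ⟨s₁, hs₁⟩ := hz.ex (max i.unpair.2 (K + 1))
    obtain ⟨s₂, hs₂⟩ := hX.dens (K + 1)
    refine ⟨max s₁ s₂, fun s hs => ?_⟩
    have h2 := hs₂ s ((le_max_right _ _).trans hs)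
    obtain ⟨w, hw1, hw2⟩ := exists_least (hs₁ s ((le_max_left _ _).trans hs))
    have h3 := hz.err _ _ _ hw1
    have h4 : cnt {y | c w y ≠ ch A y} s * 2 ^ (K + 1) ≤ 2 ^ s :=
      le_trans (Nat.mul_le_mul_left _ (Nat.pow_le_pow_right (by norm_num)
        (le_max_right _ _))) h3
    have h5 : cnt {y | ¬ Out (R3 c D) X i y} s ≤
        cnt ({n | ¬ ∃ j, Nat.pair n j ∈ X} ∪ {y | c w y ≠ ch A y}) s := by
      refine cnt_mono s fun y hy1 hy2 hy => ?_
      by_contra h6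
      simp only [Set.mem_union, Set.mem_ofPred_eq, not_or, not_not, ne_eq] at h6
      obtain ⟨⟨b, hb⟩, h7⟩ := h6
      apply hy
      have h8 := mem_Gr.1 (hX.sub _ hb)
      have h9 : b < 2 := h8 ▸ ch_lt A y
      have h10 : s < y + 1 := by
        have := @Nat.lt_two_pow_self s
        omega
      by_cases hf : ∃ t, Fz c D i t y
      · obtain ⟨t, ht1, ht2⟩ := exists_least hf
        exact ⟨[Nat.pair y b], by simpa using hb, t, Or.inl ⟨⟨b, h9, by simp,
          hc y t ht1 ht2 b h9 hb⟩, ht2⟩⟩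
      · push Not at hf
        refine ⟨[Nat.pair y b], by simpa using hb, max (max i.unpair.2 (K + 1)) w,
          Or.inl ⟨⟨b, h9, by simp, ?_⟩, fun t' _ => hf t'⟩⟩
        exact ⟨s, h10, hy1, hy2, max i.unpair.2 (K + 1),
          Nat.lt_succ_of_le (le_max_left _ _), le_max_left _ _, w,
          Nat.lt_succ_of_le (le_max_right _ _), hw1, hw2, by rw [h7, h8]⟩
    have h6 := h5.trans (cnt_union _ _ s)
    rw [pow_succ] at h2 h4
    nlinarith [Nat.two_pow_pos K]

theorem cnt_iUnion {T : ℕ → Set ℕ} {j s : ℕ} (h : ∀ k, j ≤ k → cnt (T k) s * 2 ^ k ≤ 2 ^ s) :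
    cnt {y | ∃ k, j ≤ k ∧ y ∈ T k} s * 2 ^ j ≤ 2 * 2 ^ s := by
  have h1 : ∀ d, cnt {y | ∃ k, j ≤ k ∧ k < j + d ∧ y ∈ T k} s * 2 ^ (j + d) + 2 * 2 ^ s ≤
      2 * 2 ^ d * 2 ^ s := by
    intro d
    induction d with
    | zero =>
      have h2 : cnt {y | ∃ k, j ≤ k ∧ k < j + 0 ∧ y ∈ T k} s ≤ cnt ∅ s := by
        refine cnt_mono s fun y _ _ hy => ?_
        obtain ⟨k, hk1, hk2, _⟩ := hy
        omega
      rw [cnt_empty] at h2
      simp only [Nat.le_zero] at h2
      rw [h2]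
      simp
    | succ d ih =>
      have h2 : cnt {y | ∃ k, j ≤ k ∧ k < j + (d + 1) ∧ y ∈ T k} s ≤
          cnt ({y | ∃ k, j ≤ k ∧ k < j + d ∧ y ∈ T k} ∪ T (j + d)) s := by
        refine cnt_mono s fun y _ _ hy => ?_
        obtain ⟨k, hk1, hk2, hk3⟩ := hy
        rcases Nat.lt_or_ge k (j + d) with h3 | h3
        · exact Or.inl ⟨k, hk1, h3, hk3⟩
        · right
          rwa [show j + d = k by omega]
      have h3 := h2.trans (cnt_union _ _ s)
      have h4 := h (j + d) (by omega)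
      have h5 := Nat.mul_le_mul_right (2 ^ (j + (d + 1))) h3
      rw [show j + (d + 1) = (j + d) + 1 by ring, pow_succ 2 (j + d)] at h5
      rw [show j + (d + 1) = (j + d) + 1 by ring, pow_succ 2 (j + d), pow_succ 2 d]
      nlinarith
  have h2 : cnt {y | ∃ k, j ≤ k ∧ y ∈ T k} s ≤
      cnt {y | ∃ k, j ≤ k ∧ k < j + (s + 1) ∧ y ∈ T k} s := by
    refine cnt_mono s fun y hy1 hy2 hy => ?_
    obtain ⟨k, hk1, hk2⟩ := hy
    refine ⟨k, hk1, ?_, hk2⟩
    by_contra h3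
    have h4 := h k hk1
    have h5 : 0 < cnt (T k) s := by
      unfold cnt
      rw [Finset.card_pos]
      refine ⟨y, ?_⟩
      simp only [Finset.mem_filter, Finset.mem_Ico]
      exact ⟨⟨hy1, hy2⟩, hk2⟩
    have h6 : 2 ^ s < 2 ^ k := Nat.pow_lt_pow_right (by norm_num) (by omega)
    have h7 : 1 * 2 ^ k ≤ cnt (T k) s * 2 ^ k := Nat.mul_le_mul_right _ h5
    omega
  have h3 := h1 (s + 1)
  have h4 := Nat.mul_le_mul_right (2 ^ (j + (s + 1))) h2
  have h5 : cnt {y | ∃ k, j ≤ k ∧ y ∈ T k} s * 2 ^ j * 2 ^ (s + 1) ≤ 2 * 2 ^ s * 2 ^ (s + 1) := by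
    rw [mul_assoc, ← pow_add]
    calc _ ≤ _ := h4
      _ ≤ 2 * 2 ^ (s + 1) * 2 ^ s := by omega
      _ = _ := by ring
  exact Nat.le_of_mul_le_mul_right h5 (Nat.two_pow_pos _)

theorem third (hA : ¬ Bd A) (hz : Thin A c D) : GC A := by
  classical
  obtain ⟨e, he1, he2⟩ := key hA (p_R3 hz) fun X hX i => third_dens hz hX i
  have claim : ∀ t i y, i.unpair.1 = e → Fz c D i t y → (∀ t', t' < t → ¬ Fz c D i t' y) →
      Vl c D t i.unpair.2 y (ch A y) := by
    intro t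
    induction t using Nat.strong_induction_on with
    | _ t ih =>
      intro i y hi h1 h2
      have h3 := h1.1
      rw [hi] at h3
      obtain ⟨l, hl, t'', h4⟩ := he1 _ _ _ h3
      rcases h4 with ⟨⟨b, _, h5, h6⟩, h7⟩ | ⟨⟨y', _, h5, h6, b, _, h7, h8⟩, h9⟩
      · have h8 := mem_Gr.1 (hl _ h5)
        have h9 : t'' ≤ t := by
          by_contra h10
          exact h7 t (by omega) h1
        rw [← h8]
        exact h6.mono h9
      · have h10 := mem_Gr.1 (hl _ h7)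
        have h11 : t'' < t := by
          by_contra h12
          exact h9 (h1.mono (by omega))
        have h12 := ih t'' h11 i y' hi h5 h6
        rw [← h10] at h12
        exact absurd h12 h8
  have hval : ∀ y m, GG c D e y m → m.unpair.1 = ch A y := by
    rintro y m ⟨h1, h2, h3, h4, h5⟩
    have h6 := claim _ _ _ (by simp) h2 h3
    simp only [Nat.unpair_pair] at h6
    by_contra h7
    have h8 := ch_lt A y
    apply h5
    rwa [show 1 - m.unpair.1 = ch A y by omega]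
  have hcomp : Partrec fun y => Nat.rfindOpt fun m =>
      if GG c D e y m then some (decide (m.unpair.1 = 1)) else none := by
    have h1 : Primrec fun p : ℕ × ℕ => if GG c D e p.1 p.2 then
        some (decide (p.2.unpair.1 = 1)) else (none : Option Bool) :=
      Primrec.ite (p_GG hz e) (Primrec.option_some.comp
        (p_eq (p_fst (p_unpair (p_snd p_id))) (p_const 1)).decide) (Primrec.const none)
    exact Partrec.rfindOpt h1.to_comp.to₂
  refine ⟨_, hcomp, ?_, ?_⟩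
  · intro y b hb
    obtain ⟨m, hm⟩ := Nat.rfindOpt_spec hb
    by_cases h1 : GG c D e y m
    · rw [if_pos h1, Option.mem_def, Option.some.injEq] at hm
      rw [← hm, decide_eq_true_iff, hval y m h1]
      unfold ch
      split <;> simp_all
    · rw [if_neg h1] at hm
      exact absurd hm (by simp)
  · rw [dens_iff_sm]
    intro K
    have hsm := he2 (Nat.pair e (K + 2)) (K + 1)
    obtain ⟨s₁, hs₁⟩ := hsm
    obtain ⟨s₂, hs₂⟩ := hz.ex (K + 2)
    refine ⟨max s₁ s₂, fun s hs => ?_⟩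
    have h1 := hs₁ s ((le_max_left _ _).trans hs)
    obtain ⟨w, hw1, hw2⟩ := exists_least (hs₂ s ((le_max_right _ _).trans hs))
    set T : ℕ → Set ℕ := fun k => {y | ∃ w, (D k s w ∧ ∀ w', w' < w → ¬ D k s w') ∧
      c w y ≠ ch A y} with hT
    have h2 : ∀ k, K + 2 ≤ k → cnt (T k) s * 2 ^ k ≤ 2 ^ s := by
      intro k _
      by_cases h3 : ∃ w, D k s w
      · obtain ⟨v, hv1, hv2⟩ := exists_least h3
        refine le_trans (Nat.mul_le_mul_right _ (cnt_mono s fun y _ _ hy => ?_))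
          (hz.err _ _ _ hv1)
        obtain ⟨v', ⟨h4, h5⟩, h6⟩ := hy
        have : v' = v := by
          rcases lt_trichotomy v' v with h7 | h7 | h7
          · exact absurd h4 (hv2 _ h7)
          · exact h7
          · exact absurd hv1 (h5 _ h7)
        rwa [this] at h6
      · have h4 : cnt (T k) s ≤ cnt ∅ s := cnt_mono s fun y _ _ hy => by
          obtain ⟨v', ⟨h4, h5⟩, h6⟩ := hy
          exact h3 ⟨v', h4⟩
        rw [cnt_empty, Nat.le_zero] at h4
        rw [h4]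
        simp
    have h3 := cnt_iUnion h2
    have h4 : cnt {n : ℕ | (Nat.rfindOpt fun m =>
        if GG c D e n m then some (decide (m.unpair.1 = 1)) else none).Dom}ᶜ s ≤
        cnt ({q | ¬ ∃ t, En e t (cod (Nat.pair e (K + 2)) q)} ∪
          {y | ∃ k, K + 2 ≤ k ∧ y ∈ T k}) s := by
      refine cnt_mono s fun y hy1 hy2 hy => ?_
      by_contra h5
      simp only [Set.mem_union, Set.mem_ofPred_eq, not_or, not_not] at h5
      obtain ⟨⟨t₀, ht₀⟩, h6⟩ := h5
      apply hy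
      have h7 : s < y + 1 := by
        have := @Nat.lt_two_pow_self s
        omega
      have h8 : ∃ t, Fz c D (Nat.pair e (K + 2)) t y := by
        refine ⟨max t₀ (max (K + 2) w), ?_, c w y, hz.lt _ _, ?_⟩
        · simp only [Nat.unpair_pair]
          exact ht₀.mono (le_max_left _ _)
        · simp only [Nat.unpair_pair]
          refine Vl.mono (le_max_right _ _) ?_
          exact ⟨s, h7, hy1, hy2, K + 2, Nat.lt_succ_of_le (le_max_left _ _), le_rfl, w,
            Nat.lt_succ_of_le (le_max_right _ _), hw1, hw2, rfl⟩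
      obtain ⟨t, ht1, ht2⟩ := exists_least h8
      have h9 := claim _ _ _ (by simp) ht1 ht2
      simp only [Nat.unpair_pair] at h9
      have h10 : GG c D e y (Nat.pair (ch A y) (Nat.pair (K + 2) t)) := by
        unfold GG
        simp only [Nat.unpair_pair]
        refine ⟨ch_lt A y, ht1, ht2, h9, ?_⟩
        rintro ⟨s', _, k1, k2, k, _, k3, v, _, k4, k5, k6⟩
        obtain rfl := scale_unique hy1 hy2 k1 k2
        apply h6
        refine ⟨k, k3, v, ⟨k4, k5⟩, ?_⟩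
        rw [k6]
        have := ch_lt A y
        omega
      refine Nat.rfindOpt_dom.2 ⟨Nat.pair (ch A y) (Nat.pair (K + 2) t),
        decide ((Nat.pair (ch A y) (Nat.pair (K + 2) t)).unpair.1 = 1), ?_⟩
      rw [if_pos h10]
      exact rfl
    have h5 := h4.trans (cnt_union _ _ s)
    rw [pow_succ] at h1
    rw [pow_add] at h3
    nlinarith [Nat.two_pow_pos K]

end

/-- Every set which is not generically computable is density-1-bounding. -/
theorem main (A : Set ℕ) (hA : ¬ GC A) : Bd A := by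
  by_contra hB
  obtain ⟨z, la, hz⟩ := first hB
  obtain ⟨c, D, hc⟩ := second hB hz
  exact hA (third hB hc)

end Pool.Agent.Helper92.Gen
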